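import Pool.Graph.R_seed8.H606R2.MinRank.Defs

/-!
# The existential theory of the complex numbers

`ETC` is the problem of deciding the truth in `ℂ` of sentences `∃ y_0 ∃ y_1 ⋯ φ(y)`, where `φ` is a
Boolean combination of equations between polynomials built from `0`, `1`, variables, `+` and `·`.
-/

namespace Pool.Agent.KS6_28.MinRank

open Pool.Agent.NPC Pool.Agent.H606R2.MinRank

/-- The value of a polynomial at a complex point. -/
noncomputable def cval (y : ℕ → ℂ) : Term → ℂ
  | Term.zero => 0
  | Term.one => 1
  | Term.var n => y n
  | Term.add s t => cval y s + cval y t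
  | Term.mul s t => cval y s * cval y t

/-- Quantifier-free formulas: Boolean combinations of equations between polynomials. -/
inductive CFormula : Type
  | eq (s t : Term) : CFormula
  | not (φ : CFormula) : CFormula
  | and (φ ψ : CFormula) : CFormula
  | or (φ ψ : CFormula) : CFormula

/-- `φ` is true at the complex point `y`. -/
def CFormula.Holds (y : ℕ → ℂ) : CFormula → Prop
  | eq s t => cval y s = cval y t
  | not φ => ¬ φ.Holds y
  | and φ ψ => φ.Holds y ∧ ψ.Holds y
  | or φ ψ => φ.Holds y ∨ ψ.Holds y

/-- `ETC`: the sentence `∃ y_0 ∃ y_1 ⋯ φ(y)` is true in the complex numbers. -/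
def ETC (φ : CFormula) : Prop := ∃ y : ℕ → ℂ, φ.Holds y

/-- The same formula as a formula of the language with `<`. -/
def CFormula.toFormula : CFormula → Formula
  | eq s t => Formula.eq s t
  | not φ => Formula.not φ.toFormula
  | and φ ψ => Formula.and φ.toFormula ψ.toFormula
  | or φ ψ => Formula.or φ.toFormula ψ.toFormula

theorem CFormula.toFormula_injective : Function.Injective CFormula.toFormula := by
  intro φ
  induction φ with
  | eq s t =>
    intro ψ h
    cases ψ <;> simp [toFormula] at h
    obtain ⟨rfl, rfl⟩ := h
    rfl
  | not φ ih =>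
    intro ψ h
    cases ψ <;> simp [toFormula] at h
    rw [ih h]
  | and φ ψ ih ih' =>
    intro χ h
    cases χ <;> simp [toFormula] at h
    rw [ih h.1, ih' h.2]
  | or φ ψ ih ih' =>
    intro χ h
    cases χ <;> simp [toFormula] at h
    rw [ih h.1, ih' h.2]

/-- Sentences over the complex numbers are coded like sentences over the reals. -/
instance : TEnc CFormula :=
  ⟨fun φ => toT φ.toFormula, TEnc.inj.comp CFormula.toFormula_injective⟩

/-- A promise problem is `∃ℂ`-hard if `ETC` reduces to it: a polynomial-time computable map sends
true sentences to yes-instances and false sentences to no-instances. -/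
def ExistsCHard {α : Type} [TEnc α] (Q : Promise α) : Prop :=
  ∃ f : CFormula → α, PolyTimeMap f ∧ ∀ φ, (ETC φ → Q.yes (f φ)) ∧ (¬ ETC φ → Q.no (f φ))

/-- A promise problem is in `∃ℂ` if it reduces to `ETC`: a polynomial-time computable map sends
yes-instances to true sentences and no-instances to false sentences. -/
def InExistsC {α : Type} [TEnc α] (Q : Promise α) : Prop :=
  ∃ f : α → CFormula, PolyTimeMap f ∧ ∀ a, (Q.yes a → ETC (f a)) ∧ (Q.no a → ¬ ETC (f a))

end Pool.Agent.KS6_28.MinRank
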