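import Mathlib

/-!
# Flat extensions of truncated moment functionals with additive codes

A functional on the polynomials of bounded degree in finitely many variables is given by a function
`y` on the codes (natural numbers) of the monomials, the code of a product being the sum of the
codes.  If the matrix `y (a + b)`, with `a`, `b` the codes of the monomials of degree at most `d`,
has rank at most `d`, then there is a point at which all polynomial equations (between products of
at most two variables) hold which the functional satisfies.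
-/

namespace Pool.Agent.KS6_28.MinRank

open Module

universe u v w

/-- Commuting endomorphisms of a nonzero finite-dimensional space over an algebraically closed field
have a common eigenvector. -/
theorem exists_common_eigenvector {K : Type u} [Field K] [IsAlgClosed K] {ι : Type v} :
    ∀ (n : ℕ) (E : Type w) [AddCommGroup E] [Module K E] [FiniteDimensional K E] [Nontrivial E],
      finrank K E = n → ∀ (T : ι → Module.End K E), (∀ i j v, T i (T j v) = T j (T i v)) →
      ∃ v : E, v ≠ 0 ∧ ∃ ξ : ι → K, ∀ i, T i v = ξ i • v := by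
  intro n
  induction n using Nat.strong_induction_on with
  | _ n ih =>
    intro E _ _ _ _ hn T hT
    by_cases hs : ∀ i, ∃ μ : K, ∀ v, T i v = μ • v
    · choose ξ hξ using hs
      obtain ⟨v, hv⟩ := exists_ne (0 : E)
      exact ⟨v, hv, ξ, fun i => hξ i v⟩
    · push Not at hs
      obtain ⟨i, hi⟩ := hs
      obtain ⟨μ, hμ⟩ := Module.End.exists_eigenvalue (T i)
      have hmem : ∀ v, v ∈ Module.End.eigenspace (T i) μ ↔ T i v = μ • v := fun v =>
        Module.End.mem_eigenspace_iff
      obtain ⟨w, hw⟩ := hμ.exists_hasEigenvector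
      have : Nontrivial (Module.End.eigenspace (T i) μ) :=
        ⟨⟨⟨w, hw.1⟩, 0, fun h => hw.2 (congrArg Subtype.val h)⟩⟩
      have hlt : finrank K (Module.End.eigenspace (T i) μ) < n := by
        rw [← hn]
        apply Submodule.finrank_lt
        intro htop
        obtain ⟨v, hv⟩ := hi μ
        apply hv
        rw [← hmem, htop]
        trivial
      have hmaps : ∀ j, ∀ v ∈ Module.End.eigenspace (T i) μ,
          T j v ∈ Module.End.eigenspace (T i) μ := by
        intro j v hv
        rw [hmem] at hv ⊢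
        rw [hT, hv, map_smul]
      obtain ⟨v, hv, ξ, hξ⟩ := ih _ hlt (Module.End.eigenspace (T i) μ) rfl
        (fun j => (T j).restrict (hmaps j)) (by
          intro j k v
          apply Subtype.ext
          exact hT j k v)
      refine ⟨v.1, fun h => hv (Subtype.ext h), ξ, fun j => ?_⟩
      have := congrArg Subtype.val (hξ j)
      simpa using this

variable {K : Type u} [Field K]

/-- The codes of the monomials of degree at most `t`, where `G` is the list of the codes of the
variables. -/
def codes (G : List ℕ) : ℕ → List ℕ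
  | 0 => [0]
  | t + 1 => (codes G t).flatMap fun a => a :: G.map fun g => a + g

theorem mem_codes_succ {G : List ℕ} {t a : ℕ} :
    a ∈ codes G (t + 1) ↔ a ∈ codes G t ∨ ∃ b ∈ codes G t, ∃ g ∈ G, a = b + g := by
  simp only [codes, List.mem_flatMap, List.mem_cons, List.mem_map]
  constructor
  · rintro ⟨b, hb, rfl | ⟨g, hg, rfl⟩⟩
    · exact Or.inl hb
    · exact Or.inr ⟨b, hb, g, hg, rfl⟩
  · rintro (h | ⟨b, hb, g, hg, rfl⟩)
    · exact ⟨a, h, Or.inl rfl⟩
    · exact ⟨b, hb, Or.inr ⟨g, hg, rfl⟩⟩

theorem zero_mem_codes (G : List ℕ) (t : ℕ) : 0 ∈ codes G t := by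
  induction t with
  | zero => simp [codes]
  | succ t ih => exact mem_codes_succ.2 (Or.inl ih)

theorem codes_mono {G : List ℕ} {s t a : ℕ} (h : s ≤ t) (ha : a ∈ codes G s) :
    a ∈ codes G t := by
  induction t, h using Nat.le_induction with
  | base => exact ha
  | succ t _ ih => exact mem_codes_succ.2 (Or.inl ih)

theorem add_mem_codes {G : List ℕ} {s t a b : ℕ} (ha : a ∈ codes G s) (hb : b ∈ codes G t) :
    a + b ∈ codes G (s + t) := by
  induction t generalizing b with
  | zero =>
    have : b = 0 := by simpa [codes] using hb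
    subst this
    simpa using ha
  | succ t ih =>
    rcases mem_codes_succ.1 hb with h | ⟨c, hc, g, hg, rfl⟩
    · exact codes_mono (by omega) (ih h)
    · exact mem_codes_succ.2 (Or.inr ⟨a + c, ih hc, g, hg, by omega⟩)

/-- The row of `a`, with the columns in `C`. -/
noncomputable def hrow (y : ℕ → K) (C : Finset ℕ) (a : ℕ) : ℕ → K :=
  fun b => if b ∈ C then y (a + b) else 0

/-- The span of the rows. -/
noncomputable def hspan (y : ℕ → K) (A C : Finset ℕ) : Submodule K (ℕ → K) :=
  Submodule.span K (hrow y C '' (A : Set ℕ))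

instance (y : ℕ → K) (A C : Finset ℕ) : FiniteDimensional K (hspan y A C) :=
  FiniteDimensional.span_of_finite K (A.finite_toSet.image _)

/-- Restriction to the columns in `C`. -/
noncomputable def cut (C : Finset ℕ) : (ℕ → K) →ₗ[K] (ℕ → K) where
  toFun f b := if b ∈ C then f b else 0
  map_add' f g := by
    funext b
    by_cases h : b ∈ C <;> simp [h]
  map_smul' c f := by
    funext b
    by_cases h : b ∈ C <;> simp [h]

theorem cut_hrow (y : ℕ → K) {C C' : Finset ℕ} (h : C ⊆ C') (a : ℕ) :
    cut C (hrow y C' a) = hrow y C a := by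
  funext b
  by_cases hb : b ∈ C
  · simp [cut, hrow, hb, h hb]
  · simp [cut, hrow, hb]

theorem map_cut (y : ℕ → K) (A : Finset ℕ) {C C' : Finset ℕ} (h : C ⊆ C') :
    (hspan y A C').map (cut C) = hspan y A C := by
  rw [hspan, Submodule.map_span, hspan, Set.image_image]
  congr 1
  apply Set.image_congr
  intro a _
  exact cut_hrow y h a

theorem finrank_mono_cols (y : ℕ → K) (A : Finset ℕ) {C C' : Finset ℕ} (h : C ⊆ C') :
    finrank K (hspan y A C) ≤ finrank K (hspan y A C') := by
  rw [← map_cut y A h]
  exact Submodule.finrank_map_le _ _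

theorem hspan_mono (y : ℕ → K) {A A' : Finset ℕ} (C : Finset ℕ) (h : A ⊆ A') :
    hspan y A C ≤ hspan y A' C :=
  Submodule.span_mono (Set.image_mono (by exact_mod_cast h))

theorem finrank_mono_rows (y : ℕ → K) {A A' : Finset ℕ} (C : Finset ℕ) (h : A ⊆ A') :
    finrank K (hspan y A C) ≤ finrank K (hspan y A' C) :=
  Submodule.finrank_mono (hspan_mono y C h)

/-- The set of codes of degree at most `t`. -/
def cset (G : List ℕ) (t : ℕ) : Finset ℕ := (codes G t).toFinset

theorem mem_cset {G : List ℕ} {t a : ℕ} : a ∈ cset G t ↔ a ∈ codes G t := List.mem_toFinset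

theorem cset_mono {G : List ℕ} {s t : ℕ} (h : s ≤ t) : cset G s ⊆ cset G t := fun _ ha =>
  mem_cset.2 (codes_mono h (mem_cset.1 ha))

/-- Somewhere the rank does not grow. -/
theorem exists_flat {G : List ℕ} {y : ℕ → K} (hy : y 0 ≠ 0) {d : ℕ}
    (h : finrank K (hspan y (cset G d) (cset G d)) ≤ d) :
    ∃ t < d, hspan y (cset G t) (cset G (t + 1)) = hspan y (cset G (t + 1)) (cset G (t + 1)) := by
  by_contra hcon
  push Not at hcon
  have key : ∀ t ≤ d, t + 1 ≤ finrank K (hspan y (cset G t) (cset G t)) := by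
    intro t
    induction t with
    | zero =>
      intro _
      have hne : hspan y (cset G 0) (cset G 0) ≠ ⊥ := by
        intro hbot
        have h0 : hrow y (cset G 0) 0 ∈ hspan y (cset G 0) (cset G 0) :=
          Submodule.subset_span ⟨0, mem_cset.2 (zero_mem_codes G 0), rfl⟩
        rw [hbot, Submodule.mem_bot] at h0
        have := congrFun h0 0
        simp [hrow, mem_cset, zero_mem_codes] at this
        exact hy this
      have := Submodule.one_le_finrank_iff.2 hne
      omega
    | succ t ih =>
      intro ht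
      have h1 := ih (by omega)
      have h2 := hcon t (by omega)
      have h3 : finrank K (hspan y (cset G t) (cset G (t + 1))) <
          finrank K (hspan y (cset G (t + 1)) (cset G (t + 1))) := by
        apply Submodule.finrank_lt_finrank_of_lt
        exact lt_of_le_of_ne (hspan_mono y _ (cset_mono (by omega))) h2
      have h4 := finrank_mono_cols y (cset G t) (cset_mono (G := G) (s := t) (t := t + 1) (by omega))
      omega
  have := key d le_rfl
  omega

/-- The main theorem on flat extensions. -/
theorem exists_point [IsAlgClosed K] {G : List ℕ} {y : ℕ → K} (hy : y 0 ≠ 0) {d : ℕ}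
    (h : finrank K (hspan y (cset G d) (cset G d)) ≤ d) :
    ∃ ξ : ℕ → K,
      (∀ g ∈ G, ∀ g' ∈ G, ∀ k ∈ G, (∀ c ∈ codes G (2 * d), y (c + g) + y (c + g') = y (c + k)) →
        ξ g + ξ g' = ξ k) ∧
      (∀ g ∈ G, ∀ g' ∈ G, ∀ k ∈ G, (∀ c ∈ codes G (2 * d), y (c + g + g') = y (c + k)) →
        ξ g * ξ g' = ξ k) ∧
      (∀ g ∈ G, (∀ c ∈ codes G (2 * d), y (c + g) = y c) → ξ g = 1) := by
  obtain ⟨t, htd, hflat⟩ := exists_flat hy h
  -- coefficients
  have hco : ∀ a ∈ cset G (t + 1), ∃ c : ℕ → K, ∀ b ∈ cset G (t + 1),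
      y (a + b) = ∑ s ∈ cset G t, c s * y (s + b) := by
    intro a ha
    have h1 : hrow y (cset G (t + 1)) a ∈ hspan y (cset G t) (cset G (t + 1)) := by
      rw [hflat]
      exact Submodule.subset_span ⟨a, ha, rfl⟩
    rw [hspan, Submodule.mem_span_image_finset_iff_exists_fun] at h1
    obtain ⟨c, hc⟩ := h1
    refine ⟨Function.extend Subtype.val c 0, fun b hb => ?_⟩
    have := congrFun hc b
    simp only [Finset.sum_apply, Pi.smul_apply, smul_eq_mul, hrow, if_pos hb] at this
    rw [← this, ← Finset.sum_coe_sort (cset G t)]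
    refine Finset.sum_congr rfl fun s _ => ?_
    rw [Subtype.val_injective.extend_apply]
  choose! c hc using hco
  -- the operators
  let E := {s : ℕ // s ∈ cset G t} → K
  let M : {g // g ∈ G} → (E →ₗ[K] E) := fun g =>
    { toFun := fun v s => ∑ r : {s : ℕ // s ∈ cset G t}, c (s.1 + g.1) r.1 * v r
      map_add' := by
        intro v w
        funext s
        show ∑ r : {s : ℕ // s ∈ cset G t}, c (s.1 + g.1) r.1 * (v r + w r) =
          ∑ r : {s : ℕ // s ∈ cset G t}, c (s.1 + g.1) r.1 * v r +
          ∑ r : {s : ℕ // s ∈ cset G t}, c (s.1 + g.1) r.1 * w r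
        rw [← Finset.sum_add_distrib]
        exact Finset.sum_congr rfl fun r _ => by ring
      map_smul' := by
        intro a v
        funext s
        show ∑ r : {s : ℕ // s ∈ cset G t}, c (s.1 + g.1) r.1 * (a * v r) =
          a * ∑ r : {s : ℕ // s ∈ cset G t}, c (s.1 + g.1) r.1 * v r
        rw [Finset.mul_sum]
        exact Finset.sum_congr rfl fun r _ => by ring }
  let vec : ℕ → E := fun b s => y (s.1 + b)
  have hsg : ∀ s ∈ cset G t, ∀ g ∈ G, s + g ∈ cset G (t + 1) := fun s hs g hg =>
    mem_cset.2 (mem_codes_succ.2 (Or.inr ⟨s, mem_cset.1 hs, g, hg, rfl⟩))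
  have hMv : ∀ g : {g // g ∈ G}, ∀ b ∈ cset G (t + 1), M g (vec b) = vec (b + g.1) := by
    intro g b hb
    funext s
    have h1 := hc (s.1 + g.1) (hsg _ s.2 _ g.2) b hb
    show ∑ r : {s : ℕ // s ∈ cset G t}, c (s.1 + g.1) r.1 * y (r.1 + b) = y (s.1 + (b + g.1))
    rw [Finset.sum_coe_sort (cset G t) (fun r => c (s.1 + g.1) r * y (r + b)), ← h1]
    congr 1
    ring
  let W : Submodule K E := Submodule.span K (vec '' (cset G t : Set ℕ))
  have hvecW : ∀ b ∈ cset G (t + 1), vec b ∈ W := by
    intro b hb
    have h1 : vec b = ∑ s ∈ cset G t, c b s • vec s := by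
      funext r
      have h2 := hc b hb r.1 (cset_mono (by omega) r.2)
      rw [Finset.sum_apply]
      show y (r.1 + b) = ∑ s ∈ cset G t, c b s * y (r.1 + s)
      rw [Nat.add_comm, h2]
      exact Finset.sum_congr rfl fun s _ => by rw [Nat.add_comm]
    rw [h1]
    exact Submodule.sum_mem _ fun s hs => Submodule.smul_mem _ _
      (Submodule.subset_span ⟨s, hs, rfl⟩)
  have hmono : ∀ b ∈ cset G t, b ∈ cset G (t + 1) := fun b hb => cset_mono (by omega) hb
  have hmaps : ∀ g : {g // g ∈ G}, ∀ v ∈ W, M g v ∈ W := by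
    intro g v hv
    refine Submodule.span_induction (p := fun v _ => M g v ∈ W) ?_ ?_ ?_ ?_ hv
    · rintro _ ⟨b, hb, rfl⟩
      rw [hMv g b (hmono b hb)]
      exact hvecW _ (hsg _ hb _ g.2)
    · rw [map_zero]; exact W.zero_mem
    · intro x z _ _ hx hz
      rw [map_add]; exact W.add_mem hx hz
    · intro a x _ hx
      rw [map_smul]; exact W.smul_mem _ hx
  have hcomm : ∀ g g' : {g // g ∈ G}, ∀ v ∈ W, M g (M g' v) = M g' (M g v) := by
    intro g g' v hv
    refine Submodule.span_induction (p := fun v _ => M g (M g' v) = M g' (M g v)) ?_ ?_ ?_ ?_ hv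
    · rintro _ ⟨b, hb, rfl⟩
      rw [hMv g' b (hmono b hb), hMv g b (hmono b hb), hMv g _ (hsg _ hb _ g'.2),
        hMv g' _ (hsg _ hb _ g.2)]
      congr 1
      ring
    · simp
    · intro x z _ _ hx hz
      simp only [map_add, hx, hz]
    · intro a x _ hx
      simp only [map_smul, hx]
  have : Nontrivial W := by
    refine ⟨⟨⟨vec 0, Submodule.subset_span ⟨0, mem_cset.2 (zero_mem_codes G t), rfl⟩⟩, 0, ?_⟩⟩
    intro h0
    have := congrArg Subtype.val h0
    have h1 : y (0 + 0) = 0 := congrFun this ⟨0, mem_cset.2 (zero_mem_codes G t)⟩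
    exact hy (by simpa using h1)
  obtain ⟨v, hv, ξ, hξ⟩ := exists_common_eigenvector (K := K) (ι := {g // g ∈ G}) _ W rfl
    (fun g => (M g).restrict (hmaps g)) (by
      intro g g' v
      apply Subtype.ext
      exact hcomm g g' v.1 v.2)
  have hξ' : ∀ g, M g v.1 = ξ g • v.1 := fun g => by
    have := congrArg Subtype.val (hξ g)
    simpa using this
  have hv' : v.1 ≠ 0 := fun h => hv (Subtype.ext h)
  -- identities on `W`
  have hid : ∀ (A B : E →ₗ[K] E), (∀ b ∈ cset G t, A (vec b) = B (vec b)) →
      A v.1 = B v.1 := by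
    intro A B hAB
    refine Submodule.span_induction (p := fun v _ => A v = B v) ?_ ?_ ?_ ?_ v.2
    · rintro _ ⟨b, hb, rfl⟩
      exact hAB b hb
    · simp
    · intro x z _ _ hx hz
      simp only [map_add, hx, hz]
    · intro a x _ hx
      simp only [map_smul, hx]
  have hsb : ∀ s ∈ cset G t, ∀ b ∈ cset G t, s + b ∈ codes G (2 * d) := fun s hs b hb =>
    codes_mono (by omega) (add_mem_codes (mem_cset.1 hs) (mem_cset.1 hb))
  classical
  refine ⟨fun g => if hg : g ∈ G then ξ ⟨g, hg⟩ else 0, ?_, ?_, ?_⟩
  · intro g hg g' hg' k hk hrel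
    simp only [dif_pos hg, dif_pos hg', dif_pos hk]
    have h1 := hid (M ⟨g, hg⟩ + M ⟨g', hg'⟩) (M ⟨k, hk⟩) (by
      intro b hb
      rw [LinearMap.add_apply, hMv _ b (hmono b hb), hMv _ b (hmono b hb), hMv _ b (hmono b hb)]
      funext s
      have := hrel (s.1 + b) (hsb _ s.2 _ hb)
      show y (s.1 + (b + g)) + y (s.1 + (b + g')) = y (s.1 + (b + k))
      rw [← Nat.add_assoc, ← Nat.add_assoc, ← Nat.add_assoc]
      exact this)
    rw [LinearMap.add_apply, hξ', hξ', hξ', ← add_smul] at h1
    exact smul_left_injective K hv' h1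
  · intro g hg g' hg' k hk hrel
    simp only [dif_pos hg, dif_pos hg', dif_pos hk]
    have h1 := hid (M ⟨g, hg⟩ ∘ₗ M ⟨g', hg'⟩) (M ⟨k, hk⟩) (by
      intro b hb
      rw [LinearMap.comp_apply, hMv _ b (hmono b hb), hMv _ _ (hsg _ hb _ hg'),
        hMv _ b (hmono b hb)]
      funext s
      have := hrel (s.1 + b) (hsb _ s.2 _ hb)
      show y (s.1 + (b + g' + g)) = y (s.1 + (b + k))
      have e1 : s.1 + (b + g' + g) = s.1 + b + g + g' := by ring
      have e2 : s.1 + (b + k) = s.1 + b + k := by ring
      rw [e1, e2]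
      exact this)
    rw [LinearMap.comp_apply, hξ', map_smul, hξ', hξ', smul_smul] at h1
    have h2 := smul_left_injective K hv' h1
    rw [← h2]
    ring
  · intro g hg hrel
    simp only [dif_pos hg]
    have h1 := hid (M ⟨g, hg⟩) LinearMap.id (by
      intro b hb
      rw [LinearMap.id_apply, hMv _ b (hmono b hb)]
      funext s
      have := hrel (s.1 + b) (hsb _ s.2 _ hb)
      show y (s.1 + (b + g)) = y (s.1 + b)
      rw [← Nat.add_assoc]
      exact this)
    rw [LinearMap.id_apply, hξ'] at h1
    have h2 : ξ ⟨g, hg⟩ • v.1 = (1 : K) • v.1 := by rw [h1, one_smul]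
    exact smul_left_injective K hv' h2

end Pool.Agent.KS6_28.MinRank
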