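import Mathlib

/-!
# Rank factorisations
-/

namespace Pool.Agent.KS6_28.MinRank

open Module Matrix

universe u v

variable {K : Type u} [Field K] {m n : Type} [Fintype m] [Fintype n]

theorem rank_le_of_factor {r : ℕ} (U : Matrix m (Fin r) K) (V : Matrix (Fin r) n K) :
    (U * V).rank ≤ r :=
  (Matrix.rank_mul_le_left _ _).trans ((Matrix.rank_le_card_width _).trans (by simp))

/-- A matrix of rank at most `r` is a product with inner dimension `r`. -/
theorem exists_factor (M : Matrix m n K) {r : ℕ} (h : M.rank ≤ r) :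
    ∃ (U : Matrix m (Fin r) K) (V : Matrix (Fin r) n K), M = U * V := by
  classical
  let W : Submodule K (n → K) := Submodule.span K (Set.range M.row)
  have hW : finrank K W = M.rank := (Matrix.rank_eq_finrank_span_row M).symm
  obtain ⟨e, rfl⟩ : ∃ e, r = finrank K W + e := ⟨r - finrank K W, by omega⟩
  let b := finBasis K W
  have hmem : ∀ i, M i ∈ W := fun i => Submodule.subset_span ⟨i, rfl⟩
  refine ⟨Matrix.of fun i => Fin.append (fun l => b.repr ⟨M i, hmem i⟩ l) (fun _ => 0),
    Matrix.of (Fin.append (fun l => (b l).1) (fun _ _ => 0)), ?_⟩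
  ext i j
  rw [Matrix.mul_apply, Fin.sum_univ_add]
  have h1 : M i j = ∑ l, b.repr ⟨M i, hmem i⟩ l * (b l).1 j := by
    have h2 := congrArg Subtype.val (b.sum_repr ⟨M i, hmem i⟩)
    have h3 : (∑ l, b.repr ⟨M i, hmem i⟩ l • b l).1 j = M i j := congrFun h2 j
    rw [← h3]
    simp only [Submodule.coe_sum, Submodule.coe_smul, Finset.sum_apply, Pi.smul_apply, smul_eq_mul]
  rw [h1]
  simp

theorem rank_add_le (A B : Matrix m n K) : (A + B).rank ≤ A.rank + B.rank := by
  obtain ⟨U, V, hA⟩ := exists_factor A le_rfl
  obtain ⟨U', V', hB⟩ := exists_factor B le_rfl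
  have h1 : A + B = Matrix.fromCols U U' * Matrix.fromRows V V' := by
    rw [Matrix.fromCols_mul_fromRows, ← hA, ← hB]
  have h2 : (Matrix.fromCols U U' * Matrix.fromRows V V').rank ≤ A.rank + B.rank := by
    refine (Matrix.rank_mul_le_left _ _).trans ((Matrix.rank_le_card_width _).trans ?_)
    simp
  rw [← h1] at h2
  exact h2

theorem rank_map_le {L : Type v} [Field L] (f : K →+* L) (M : Matrix m n K) :
    (M.map f).rank ≤ M.rank := by
  obtain ⟨U, V, hM⟩ := exists_factor M le_rfl
  have h1 : M.map f = U.map f * V.map f := by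
    rw [← Matrix.map_mul, ← hM]
  rw [h1]
  exact rank_le_of_factor _ _

/-- The real part of a complex matrix of rank at most `r` has rank at most `2 r`. -/
theorem rank_re_le {M : Matrix m n ℂ} {r : ℕ} (h : M.rank ≤ r) :
    (M.map Complex.re).rank ≤ 2 * r := by
  obtain ⟨U, V, hM⟩ := exists_factor M h
  have h1 : M.map Complex.re = U.map Complex.re * V.map Complex.re +
      (U.map Complex.im) * (-(V.map Complex.im)) := by
    ext i j
    rw [hM, Matrix.map_apply, Matrix.mul_apply, Complex.re_sum, Matrix.add_apply,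
      Matrix.mul_apply, Matrix.mul_apply, ← Finset.sum_add_distrib]
    refine Finset.sum_congr rfl fun l _ => ?_
    simp [Complex.mul_re]
    ring
  rw [h1]
  have h2 := rank_le_of_factor (U.map Complex.re) (V.map Complex.re)
  have h3 := rank_le_of_factor (U.map Complex.im) (-(V.map Complex.im))
  have h4 := rank_add_le (U.map Complex.re * V.map Complex.re)
    (U.map Complex.im * (-(V.map Complex.im)))
  omega

end Pool.Agent.KS6_28.MinRank
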