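import Pool.Agent.KS6_28.MinRank.CSys
import Pool.Agent.KS6_28.MinRank.Flat
import Pool.Agent.KS6_28.MinRank.Rank

/-!
# The variable matrix of a system, with a large gap

The first diagonal block is the moment matrix `y (a + b)`; the other diagonal blocks, one for each
linear equation `a + b = c` between moments, have size `k ^ 2`, and are `a (I ⊗ J) + b (J ⊗ I)`
outside the diagonal, and `c` on the diagonal.  All other entries are new variables.
-/

namespace Pool.Agent.KS6_28.MinRank

open Pool.Agent.NPC Pool.Agent.H606R2.MinRank Module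

/-- The variables of a system. -/
def vars (cs : List Con) : List ℕ := cs.flatMap fun c => [c.2.1, c.2.2.1, c.2.2.2]

/-- The index of a variable. -/
def vidx (vs : List ℕ) (v : ℕ) : ℕ := (vs.filter fun u => decide (u < v)).length

/-- The code of a variable. -/
def vcode (w : ℕ) (vs : List ℕ) (v : ℕ) : ℕ := 2 ^ (w * vidx vs v)

/-- The codes of the variables. -/
def gens (w : ℕ) (vs : List ℕ) : List ℕ := vs.map (vcode w vs)

/-- The moment with code `m`. -/
def hv (m : ℕ) : Entry := if m = 0 then Entry.const 1 else Entry.var (2 * m)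

/-- Linear equations `a + b = c` between moments. -/
abbrev Rel : Type := Entry × Entry × Entry

/-- The linear equation of an elementary equation and a monomial. -/
def rel (w : ℕ) (vs : List ℕ) (c : Con) (m : ℕ) : Rel :=
  if c.1 = 0 then
    (hv (m + vcode w vs c.2.1), hv (m + vcode w vs c.2.2.1), hv (m + vcode w vs c.2.2.2))
  else if c.1 = 1 then
    (hv (m + vcode w vs c.2.1 + vcode w vs c.2.2.1), Entry.const 0, hv (m + vcode w vs c.2.2.2))
  else (hv (m + vcode w vs c.2.1), Entry.const 0, hv m)

/-- The linear equations. -/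
def rels (w d : ℕ) (cs : List Con) : List Rel :=
  cs.flatMap fun c => (codes (gens w (vars cs)) (2 * d)).map fun m => rel w (vars cs) c m

/-- The labels of the rows. -/
def labs (k : ℕ) (S : List ℕ) (n : ℕ) : List (ℕ × ℕ) :=
  S.map (fun a => (0, a)) ++ (List.range n).flatMap fun j => (List.range (k * k)).map fun p =>
    (j + 1, p)

/-- The entries of the block of a linear equation. -/
def aent (k : ℕ) (r : Rel) (p q : ℕ) : Entry :=
  if p / k = q / k then (if p % k = q % k then r.2.2 else r.1)
  else if p % k = q % k then r.2.1 else Entry.const 0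

/-- A dummy equation. -/
def rdum : Rel := (Entry.const 0, Entry.const 0, Entry.const 0)

/-- The entry for the labels `l`, `l'` in the position `(i, j)`. -/
def gent (k N : ℕ) (rs : List Rel) (i j : ℕ) (l l' : ℕ × ℕ) : Entry :=
  if l.1 = l'.1 then
    (if l.1 = 0 then hv (l.2 + l'.2) else aent k (rs.getD (l.1 - 1) rdum) l.2 l'.2)
  else Entry.var (2 * (i * N + j) + 1)

/-- The rows of the matrix with the labels `L`. -/
def growsOf (k : ℕ) (L : List (ℕ × ℕ)) (rs : List Rel) : List (List Entry) :=
  (List.range L.length).map fun i => (List.range L.length).map fun j =>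
    gent k L.length rs i j (L.getD i (0, 0)) (L.getD j (0, 0))

/-- The matrix with the labels `L`. -/
def gmatOf (k : ℕ) (L : List (ℕ × ℕ)) (rs : List Rel) : VarMatrix where
  rows := growsOf k L rs
  square := by
    intro r hr
    unfold growsOf at hr ⊢
    rw [List.mem_map] at hr
    obtain ⟨i, _, rfl⟩ := hr
    simp

/-- The value of an entry at a complex point. -/
noncomputable def evC (a : ℕ → ℂ) : Entry → ℂ
  | Entry.const q => (q : ℂ)
  | Entry.var i => a i

/-- The complex matrix `M(a)`. -/
noncomputable def atC (M : VarMatrix) (a : ℕ → ℂ) :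
    Matrix (Fin M.rows.length) (Fin M.rows.length) ℂ :=
  Matrix.of fun i j =>
    evC a ((M.rows[i.1])[j.1]'(by rw [M.square _ (List.getElem_mem _)]; exact j.2))

theorem map_re_atC (M : VarMatrix) (a : ℕ → ℂ) :
    (atC M a).map Complex.re = M.at (fun v => (a v).re) := by
  ext i j
  simp only [Matrix.map_apply, atC, VarMatrix.at, Matrix.of_apply]
  cases (M.rows[i.1])[j.1]'(by rw [M.square _ (List.getElem_mem _)]; exact j.2) with
  | const q => simp [evC, Entry.eval]
  | var v => rfl

theorem map_ofReal_at (M : VarMatrix) (a : ℕ → ℝ) :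
    (M.at a).map Complex.ofRealHom = atC M (fun v => (a v : ℂ)) := by
  ext i j
  simp only [Matrix.map_apply, atC, VarMatrix.at, Matrix.of_apply]
  cases (M.rows[i.1])[j.1]'(by rw [M.square _ (List.getElem_mem _)]; exact j.2) with
  | const q => simp [evC, Entry.eval]
  | var v => rfl

theorem glength (k : ℕ) (L : List (ℕ × ℕ)) (rs : List Rel) :
    (gmatOf k L rs).rows.length = L.length := by
  simp [gmatOf, growsOf]

theorem gmatOf_atC (k : ℕ) (L : List (ℕ × ℕ)) (rs : List Rel) (a : ℕ → ℂ)
    (i j : Fin (gmatOf k L rs).rows.length) :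
    atC (gmatOf k L rs) a i j =
      evC a (gent k L.length rs i j (L.getD i (0, 0)) (L.getD j (0, 0))) := by
  simp [atC, gmatOf, growsOf]
  rfl

/-! ### Lower bounds -/

theorem exists_pos {L : List (ℕ × ℕ)} {l : ℕ × ℕ} (h : l ∈ L) :
    ∃ i < L.length, L.getD i (0, 0) = l := by
  obtain ⟨i, hi, e⟩ := List.getElem_of_mem h
  exact ⟨i, hi, by rw [List.getD_eq_getElem _ _ hi, e]⟩

/-- The rank is at least the rank of the moment matrix. -/
theorem finrank_le_rank {N : ℕ} (M : Matrix (Fin N) (Fin N) ℂ) (y : ℕ → ℂ) (S : Finset ℕ)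
    (pos : ℕ → Fin N) (h : ∀ a ∈ S, ∀ b ∈ S, M (pos a) (pos b) = y (a + b)) :
    finrank ℂ (hspan y S S) ≤ M.rank := by
  let φ : (Fin N → ℂ) →ₗ[ℂ] (ℕ → ℂ) :=
    { toFun := fun f b => if b ∈ S then f (pos b) else 0
      map_add' := by
        intro f g
        funext b
        by_cases hb : b ∈ S <;> simp [hb]
      map_smul' := by
        intro c f
        funext b
        by_cases hb : b ∈ S <;> simp [hb] }
  have h1 : hspan y S S ≤ (Submodule.span ℂ (Set.range M.row)).map φ := by
    rw [hspan, Submodule.span_le]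
    rintro _ ⟨a, ha, rfl⟩
    refine ⟨M.row (pos a), Submodule.subset_span ⟨pos a, rfl⟩, ?_⟩
    funext b
    by_cases hb : b ∈ S
    · simp only [φ, hrow, LinearMap.coe_mk, AddHom.coe_mk, if_pos hb]
      exact h a ha b hb
    · simp only [φ, hrow, LinearMap.coe_mk, AddHom.coe_mk, if_neg hb]
  rw [Matrix.rank_eq_finrank_span_row]
  exact (Submodule.finrank_mono h1).trans (Submodule.finrank_map_le _ _)

/-- Left factor. -/
noncomputable def uvec (k : ℕ) (α β : ℂ) (p : ℕ) : Fin k ⊕ Fin k → ℂ :=
  Sum.elim (fun t => if p / k = t.1 then α else 0) (fun t => if p % k = t.1 then β else 0)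

theorem sum_uvec {k : ℕ} (α β : ℂ) {p q : ℕ} (hp : p < k * k) :
    ∑ t, uvec k α β p t * uvec k 1 1 q t =
      (if p / k = q / k then α else 0) + (if p % k = q % k then β else 0) := by
  have hk : 0 < k := by
    rcases Nat.eq_zero_or_pos k with h | h
    · subst h; simp at hp
    · exact h
  have h1 : p / k < k := Nat.div_lt_of_lt_mul hp
  have h2 : p % k < k := Nat.mod_lt _ hk
  rw [Fintype.sum_sum_type]
  simp only [uvec, Sum.elim_inl, Sum.elim_inr]
  congr 1
  · rw [Finset.sum_eq_single ⟨p / k, h1⟩]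
    · by_cases h : q / k = p / k
      · simp [h]
      · simp [h]
        intro h'
        exact absurd h'.symm h
    · intro t _ ht
      rw [if_neg (fun h => ht (Fin.ext h.symm)), zero_mul]
    · intro h; exact absurd (Finset.mem_univ _) h
  · rw [Finset.sum_eq_single ⟨p % k, h2⟩]
    · by_cases h : q % k = p % k
      · simp [h]
      · simp [h]
        intro h'
        exact absurd h'.symm h
    · intro t _ ht
      rw [if_neg (fun h => ht (Fin.ext h.symm)), zero_mul]
    · intro h; exact absurd (Finset.mem_univ _) h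

theorem evC_aent {k : ℕ} {a : ℕ → ℂ} {r : Rel} {p q : ℕ} (hp : p < k * k) (hq : q < k * k) :
    evC a (aent k r p q) = (if p = q then evC a r.2.2 - evC a r.1 - evC a r.2.1 else 0) +
      ∑ t, uvec k (evC a r.1) (evC a r.2.1) p t * uvec k 1 1 q t := by
  rw [sum_uvec _ _ hp]
  have hpq : p = q ↔ p / k = q / k ∧ p % k = q % k := by
    constructor
    · rintro rfl; exact ⟨rfl, rfl⟩
    · rintro ⟨h1, h2⟩
      rw [← Nat.div_add_mod p k, ← Nat.div_add_mod q k, h1, h2]
  unfold aent
  by_cases h1 : p / k = q / k <;> by_cases h2 : p % k = q % k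
  · rw [if_pos h1, if_pos h2, if_pos (hpq.2 ⟨h1, h2⟩), if_pos h1, if_pos h2]
    ring
  · rw [if_pos h1, if_neg h2, if_neg (fun h => h2 (hpq.1 h).2), if_pos h1, if_neg h2]
    ring
  · rw [if_neg h1, if_pos h2, if_neg (fun h => h1 (hpq.1 h).1), if_neg h1, if_pos h2]
    ring
  · rw [if_neg h1, if_neg h2, if_neg (fun h => h1 (hpq.1 h).1), if_neg h1, if_neg h2]
    simp [evC]

/-- If the equation fails then the block has large rank. -/
theorem block_rank {k : ℕ} {a : ℕ → ℂ} {r : Rel} (h : evC a r.1 + evC a r.2.1 ≠ evC a r.2.2) :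
    k * k ≤ (Matrix.of fun p q : Fin (k * k) => evC a (aent k r p q)).rank + 2 * k := by
  set δ : ℂ := evC a r.2.2 - evC a r.1 - evC a r.2.1 with hδ
  have hδ0 : δ ≠ 0 := by
    intro h0
    apply h
    linear_combination -h0
  let U : Matrix (Fin (k * k)) (Fin k ⊕ Fin k) ℂ :=
    Matrix.of fun p t => - uvec k (evC a r.1) (evC a r.2.1) p t
  let V : Matrix (Fin k ⊕ Fin k) (Fin (k * k)) ℂ := Matrix.of fun t q => uvec k 1 1 q t
  have h1 : δ • (1 : Matrix (Fin (k * k)) (Fin (k * k)) ℂ) =
      (Matrix.of fun p q : Fin (k * k) => evC a (aent k r p q)) + U * V := by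
    ext p q
    rw [Matrix.add_apply, Matrix.mul_apply, Matrix.of_apply, evC_aent p.2 q.2]
    simp only [U, V, Matrix.of_apply, neg_mul, Finset.sum_neg_distrib]
    rw [Matrix.smul_apply, Matrix.one_apply]
    by_cases hpq : p = q
    · rw [if_pos hpq, if_pos (congrArg Fin.val hpq)]
      simp only [smul_eq_mul]
      ring
    · rw [if_neg hpq, if_neg (fun h => hpq (Fin.ext h))]
      simp only [smul_eq_mul]
      ring
  have h2 : (δ • (1 : Matrix (Fin (k * k)) (Fin (k * k)) ℂ)).rank = k * k := by
    rw [Matrix.rank_of_det_ne_zero]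
    · simp
    · rw [Matrix.det_smul, Matrix.det_one, mul_one]
      exact pow_ne_zero _ hδ0
  have h3 : (U * V).rank ≤ 2 * k := by
    refine (Matrix.rank_mul_le_left _ _).trans ((Matrix.rank_le_card_width _).trans ?_)
    simp [two_mul]
  have h4 := rank_add_le (Matrix.of fun p q : Fin (k * k) => evC a (aent k r p q)) (U * V)
  rw [← h1, h2] at h4
  omega

/-- The value of a moment. -/
noncomputable def mom (a : ℕ → ℂ) (m : ℕ) : ℂ := evC a (hv m)

theorem mom_zero (a : ℕ → ℂ) : mom a 0 = 1 := by simp [mom, hv, evC]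

theorem mem_labs_zero {k : ℕ} {S : List ℕ} {n a : ℕ} (h : a ∈ S) : (0, a) ∈ labs k S n :=
  List.mem_append_left _ (List.mem_map.2 ⟨a, h, rfl⟩)

theorem mem_labs_succ {k : ℕ} {S : List ℕ} {n j p : ℕ} (hj : j < n) (hp : p < k * k) :
    (j + 1, p) ∈ labs k S n :=
  List.mem_append_right _ (List.mem_flatMap.2 ⟨j, List.mem_range.2 hj,
    List.mem_map.2 ⟨p, List.mem_range.2 hp, rfl⟩⟩)

/-- A matrix of small rank comes from a functional with a moment matrix of small rank which
satisfies the linear equations. -/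
theorem of_rank_le {k d : ℕ} {S : List ℕ} (h0 : 0 ∈ S) {rs : List Rel} {a : ℕ → ℂ} {R : ℕ}
    (hR : R + 2 * k < k * k) (hRd : R ≤ d)
    (h : (atC (gmatOf k (labs k S rs.length) rs) a).rank ≤ R) :
    finrank ℂ (hspan (mom a) S.toFinset S.toFinset) ≤ d ∧
      ∀ r ∈ rs, evC a r.1 + evC a r.2.1 = evC a r.2.2 := by
  set L := labs k S rs.length with hL
  have hlen := glength k L rs
  constructor
  · have hpos : ∀ m : ℕ, ∃ i : Fin (gmatOf k L rs).rows.length,
        m ∈ S → L.getD i (0, 0) = (0, m) := by
      intro m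
      by_cases hm : m ∈ S
      · obtain ⟨i, hi, e⟩ := exists_pos (mem_labs_zero (k := k) (n := rs.length) hm)
        exact ⟨⟨i, by rw [hlen]; exact hi⟩, fun _ => e⟩
      · obtain ⟨i, hi, e⟩ := exists_pos (mem_labs_zero (k := k) (n := rs.length) h0)
        exact ⟨⟨i, by rw [hlen]; exact hi⟩, fun h => absurd h hm⟩
    choose pos hp using hpos
    refine (finrank_le_rank (atC (gmatOf k L rs) a) (mom a) S.toFinset pos ?_).trans (h.trans hRd)
    intro b hb c hc
    rw [List.mem_toFinset] at hb hc
    rw [gmatOf_atC, hp b hb, hp c hc]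
    simp [gent, mom]
  · intro r hr
    by_contra hne
    obtain ⟨j, hj, e⟩ := List.getElem_of_mem hr
    have hpos : ∀ p : Fin (k * k), ∃ i : Fin (gmatOf k L rs).rows.length,
        L.getD i (0, 0) = (j + 1, p.1) := by
      intro p
      obtain ⟨i, hi, e⟩ := exists_pos (mem_labs_succ (k := k) (S := S) hj p.2)
      exact ⟨⟨i, by rw [hlen]; exact hi⟩, e⟩
    choose f hf using hpos
    have h1 : (atC (gmatOf k L rs) a).submatrix f f =
        Matrix.of fun p q : Fin (k * k) => evC a (aent k r p q) := by
      ext p q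
      rw [Matrix.submatrix_apply, gmatOf_atC, hf, hf]
      simp only [gent, if_true, Nat.succ_ne_zero, if_false, Nat.add_sub_cancel, Matrix.of_apply]
      rw [List.getD_eq_getElem _ _ hj, e]
    have h2 := block_rank (k := k) (a := a) (r := r) hne
    rw [← h1] at h2
    have h3 := Matrix.rank_submatrix_le (atC (gmatOf k L rs) a) f f
    omega

/-! ### The upper bound -/

/-- The left factor of a label. -/
noncomputable def lvec (k : ℕ) (rs : List Rel) (a : ℕ → ℂ) (l : ℕ × ℕ) : Fin k ⊕ Fin k → ℂ :=
  if l.1 = 0 then Sum.elim (fun t => if t.1 = 0 then mom a l.2 else 0) (fun _ => 0)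
  else uvec k (evC a (rs.getD (l.1 - 1) rdum).1) (evC a (rs.getD (l.1 - 1) rdum).2.1) l.2

/-- The right factor of a label. -/
noncomputable def rvec (k : ℕ) (a : ℕ → ℂ) (l : ℕ × ℕ) : Fin k ⊕ Fin k → ℂ :=
  if l.1 = 0 then Sum.elim (fun t => if t.1 = 0 then mom a l.2 else 0) (fun _ => 0)
  else uvec k 1 1 l.2

/-- The entry is a constant or an even variable. -/
def EvE : Entry → Prop
  | Entry.const _ => True
  | Entry.var v => v % 2 = 0

theorem EvE.eval {e : Entry} (h : EvE e) {a a' : ℕ → ℂ} (ha : ∀ v, v % 2 = 0 → a' v = a v) :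
    evC a' e = evC a e := by
  cases e with
  | const q => rfl
  | var v => exact ha v h

theorem evE_hv (m : ℕ) : EvE (hv m) := by
  unfold hv
  split_ifs
  · trivial
  · show 2 * m % 2 = 0
    omega

theorem mem_labs {k : ℕ} {S : List ℕ} {n : ℕ} {l : ℕ × ℕ} (h : l ∈ labs k S n) :
    (l.1 = 0 ∧ l.2 ∈ S) ∨ (l.1 ≠ 0 ∧ l.1 - 1 < n ∧ l.2 < k * k) := by
  unfold labs at h
  rw [List.mem_append, List.mem_map, List.mem_flatMap] at h
  rcases h with ⟨a, ha, rfl⟩ | ⟨j, hj, h⟩
  · exact Or.inl ⟨rfl, ha⟩
  · rw [List.mem_map] at h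
    obtain ⟨p, hp, rfl⟩ := h
    exact Or.inr ⟨by simp, by simpa using hj, by simpa using hp⟩

/-- If the moments are multiplicative and the linear equations hold then the rank is small for
suitable values of the odd variables. -/
theorem exists_rank_le {k : ℕ} (hk : 0 < k) {S : List ℕ} {rs : List Rel} {a : ℕ → ℂ}
    (hmul : ∀ b ∈ S, ∀ c ∈ S, mom a (b + c) = mom a b * mom a c)
    (hev : ∀ r ∈ rs, EvE r.1 ∧ EvE r.2.1 ∧ EvE r.2.2)
    (hrs : ∀ r ∈ rs, evC a r.1 + evC a r.2.1 = evC a r.2.2) :
    ∃ a' : ℕ → ℂ, (atC (gmatOf k (labs k S rs.length) rs) a').rank ≤ 2 * k := by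
  set L := labs k S rs.length with hL
  set N := L.length with hN
  have hlen := glength k L rs
  let a' : ℕ → ℂ := fun v => if v % 2 = 0 then a v else
    ∑ t, lvec k rs a (L.getD (v / 2 / N) (0, 0)) t * rvec k a (L.getD (v / 2 % N) (0, 0)) t
  have ha' : ∀ v, v % 2 = 0 → a' v = a v := fun v hv => if_pos hv
  have hmem : ∀ i < N, L.getD i (0, 0) ∈ L := by
    intro i hi
    rw [List.getD_eq_getElem _ _ hi]
    exact List.getElem_mem hi
  have key : ∀ i < N, ∀ j < N,
      evC a' (gent k N rs i j (L.getD i (0, 0)) (L.getD j (0, 0))) =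
      ∑ t, lvec k rs a (L.getD i (0, 0)) t * rvec k a (L.getD j (0, 0)) t := by
    intro i hi j hj
    have hli := mem_labs (hmem i hi)
    have hlj := mem_labs (hmem j hj)
    have hodd : evC a' (Entry.var (2 * (i * N + j) + 1)) =
        ∑ t, lvec k rs a (L.getD i (0, 0)) t * rvec k a (L.getD j (0, 0)) t := by
      have e1 : (2 * (i * N + j) + 1) / 2 = i * N + j := by omega
      have e2 : (i * N + j) / N = i := by
        rw [Nat.add_comm, Nat.add_mul_div_right _ _ (by omega), Nat.div_eq_of_lt hj]
        omega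
      have e3 : (i * N + j) % N = j := by
        rw [Nat.add_comm, Nat.add_mul_mod_self_right, Nat.mod_eq_of_lt hj]
      show a' _ = _
      simp only [a']
      rw [if_neg (by omega), e1, e2, e3]
    generalize L.getD i (0, 0) = l at *
    generalize L.getD j (0, 0) = l' at *
    obtain ⟨l1, l2⟩ := l
    obtain ⟨m1, m2⟩ := l'
    simp only at hli hlj
    unfold gent
    simp only
    by_cases h1 : l1 = m1
    · subst h1
      rw [if_pos rfl]
      by_cases h2 : l1 = 0
      · subst h2
        rw [if_pos rfl, (evE_hv _).eval ha']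
        have h3 : l2 ∈ S := by rcases hli with h | h; exact h.2; exact absurd rfl h.1
        have h4 : m2 ∈ S := by rcases hlj with h | h; exact h.2; exact absurd rfl h.1
        show mom a (l2 + m2) = _
        rw [hmul _ h3 _ h4, Fintype.sum_sum_type]
        simp only [lvec, rvec, if_true, Sum.elim_inl, Sum.elim_inr, mul_zero, Finset.sum_const_zero,
          add_zero]
        rw [Finset.sum_eq_single ⟨0, hk⟩]
        · simp
        · intro t _ ht
          rw [if_neg (fun h => ht (Fin.ext h)), zero_mul]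
        · intro h; exact absurd (Finset.mem_univ _) h
      · rw [if_neg h2]
        have h3 : l1 - 1 < rs.length ∧ l2 < k * k := by
          rcases hli with h | h; exact absurd h.1 h2; exact h.2
        have h4 : m2 < k * k := by rcases hlj with h | h; exact absurd h.1 h2; exact h.2.2
        have hr : rs.getD (l1 - 1) rdum ∈ rs := by
          rw [List.getD_eq_getElem _ _ h3.1]
          exact List.getElem_mem h3.1
        simp only [lvec, rvec, if_neg h2]
        generalize rs.getD (l1 - 1) rdum = r at *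
        rw [evC_aent h3.2 h4, (hev r hr).1.eval ha', (hev r hr).2.1.eval ha',
          (hev r hr).2.2.eval ha', ← hrs r hr]
        have : (if l2 = m2 then evC a r.1 + evC a r.2.1 - evC a r.1 - evC a r.2.1 else 0) = 0 := by
          split_ifs
          · ring
          · rfl
        rw [this, zero_add]
    · rw [if_neg h1]
      exact hodd
  refine ⟨a', ?_⟩
  have hfac : atC (gmatOf k L rs) a' =
      (Matrix.of fun (i : Fin (gmatOf k L rs).rows.length) (t : Fin k ⊕ Fin k) =>
        lvec k rs a (L.getD i (0, 0)) t) *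
      (Matrix.of fun (t : Fin k ⊕ Fin k) (j : Fin (gmatOf k L rs).rows.length) =>
        rvec k a (L.getD j (0, 0)) t) := by
    ext i j
    rw [gmatOf_atC, Matrix.mul_apply]
    exact key i (lt_of_lt_of_eq i.2 hlen) j (lt_of_lt_of_eq j.2 hlen)
  rw [hfac]
  refine (Matrix.rank_mul_le_left _ _).trans ((Matrix.rank_le_card_width _).trans ?_)
  simp [two_mul]

end Pool.Agent.KS6_28.MinRank
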