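import Pool.Agent.KS6_28.MinRank.CMat

/-!
# Systems over the complex numbers and minimum rank
-/

namespace Pool.Agent.KS6_28.MinRank

open Pool.Agent.NPC Pool.Agent.H606R2.MinRank Module

/-! ### Indices of variables -/

theorem length_filter_lt {α : Type} {p q : α → Bool} (hpq : ∀ u, p u = true → q u = true) :
    ∀ l : List α, (l.filter p).length ≤ (l.filter q).length ∧
      ((∃ u ∈ l, q u = true ∧ p u = false) → (l.filter p).length < (l.filter q).length)
  | [] => ⟨le_rfl, by rintro ⟨u, hu, _⟩; simp at hu⟩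
  | u :: l => by
    obtain ⟨h1, h2⟩ := length_filter_lt hpq l
    by_cases hp : p u = true
    · have hq := hpq u hp
      rw [List.filter_cons_of_pos hp, List.filter_cons_of_pos hq, List.length_cons,
        List.length_cons]
      refine ⟨by omega, ?_⟩
      rintro ⟨v, hv, hv1, hv2⟩
      rcases List.mem_cons.1 hv with rfl | hv
      · rw [hp] at hv2; exact absurd hv2 (by simp)
      · have := h2 ⟨v, hv, hv1, hv2⟩
        omega
    · by_cases hq : q u = true
      · rw [List.filter_cons_of_neg hp, List.filter_cons_of_pos hq, List.length_cons]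
        exact ⟨by omega, fun _ => by omega⟩
      · rw [List.filter_cons_of_neg hp, List.filter_cons_of_neg hq]
        refine ⟨h1, ?_⟩
        rintro ⟨v, hv, hv1, hv2⟩
        rcases List.mem_cons.1 hv with rfl | hv
        · exact absurd hv1 hq
        · exact h2 ⟨v, hv, hv1, hv2⟩

theorem vidx_lt {vs : List ℕ} {v v' : ℕ} (hv : v ∈ vs) (h : v < v') : vidx vs v < vidx vs v' := by
  refine (length_filter_lt (p := fun u => decide (u < v)) (q := fun u => decide (u < v')) ?_
    vs).2 ⟨v, hv, by simpa using h, by simp⟩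
  intro u hu
  simp only [decide_eq_true_eq] at hu ⊢
  omega

theorem vidx_inj {vs : List ℕ} {v v' : ℕ} (hv : v ∈ vs) (hv' : v' ∈ vs)
    (h : vidx vs v = vidx vs v') : v = v' := by
  rcases lt_trichotomy v v' with h1 | h1 | h1
  · have := vidx_lt hv h1; omega
  · exact h1
  · have := vidx_lt hv' h1; omega

theorem vidx_lt_length {vs : List ℕ} {v : ℕ} (hv : v ∈ vs) : vidx vs v < vs.length := by
  have h := (length_filter_lt (p := fun u => decide (u < v)) (q := fun _ : ℕ => true)
    (fun _ _ => rfl) vs).2 ⟨v, hv, rfl, by simp⟩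
  have e : vs.filter (fun _ : ℕ => true) = vs := List.filter_eq_self.2 (by simp)
  rw [e] at h
  exact h

theorem vidx_le_length (vs : List ℕ) (v : ℕ) : vidx vs v ≤ vs.length :=
  List.length_filter_le _ _

/-! ### Digits -/

theorem digit_add {B m i : ℕ} (h : m / B ^ i % B + 1 < B) (j : ℕ) :
    (m + B ^ i) / B ^ j % B = m / B ^ j % B + if j = i then 1 else 0 := by
  have hB : 0 < B := by omega
  rcases lt_trichotomy j i with hj | rfl | hj
  · rw [if_neg (by omega), add_zero]
    obtain ⟨e, rfl⟩ : ∃ e, i = j + (e + 1) := ⟨i - j - 1, by omega⟩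
    rw [pow_add, Nat.add_mul_div_left _ _ (by positivity), pow_succ, Nat.add_mul_mod_self_right]
  · rw [if_pos rfl, Nat.add_div_right _ (by positivity)]
    rw [Nat.add_mod, Nat.mod_eq_of_lt (a := 1) (by omega), Nat.mod_eq_of_lt h]
  · rw [if_neg (by omega), add_zero]
    obtain ⟨e, rfl⟩ : ∃ e, j = i + 1 + e := ⟨j - i - 1, by omega⟩
    have h1 : (m + B ^ i) / B ^ (i + 1) = m / B ^ (i + 1) := by
      rw [pow_succ, ← Nat.div_div_eq_div_mul, ← Nat.div_div_eq_div_mul,
        Nat.add_div_right _ (by positivity)]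
      set q := m / B ^ i
      have e1 := Nat.div_add_mod q B
      rw [Nat.div_eq_iff hB]
      constructor
      · have := Nat.div_mul_le_self q B
        omega
      · rw [Nat.mul_comm] at e1
        omega
    rw [pow_add, ← Nat.div_div_eq_div_mul, ← Nat.div_div_eq_div_mul, h1]

/-- The value of the monomial with code `m`. -/
noncomputable def yval (B n : ℕ) (ξ : ℕ → ℂ) (m : ℕ) : ℂ :=
  ∏ i ∈ Finset.range n, ξ i ^ (m / B ^ i % B)

theorem yval_zero (B n : ℕ) (ξ : ℕ → ℂ) : yval B n ξ 0 = 1 := by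
  simp [yval]

theorem yval_add {B n : ℕ} (ξ : ℕ → ℂ) {m i : ℕ} (hi : i < n) (h : m / B ^ i % B + 1 < B) :
    yval B n ξ (m + B ^ i) = yval B n ξ m * ξ i := by
  unfold yval
  have h1 : ∀ j ∈ Finset.range n, ξ j ^ ((m + B ^ i) / B ^ j % B) =
      ξ j ^ (m / B ^ j % B) * (if j = i then ξ j else 1) := by
    intro j _
    rw [digit_add h j, pow_add]
    congr 1
    split_ifs <;> simp
  rw [Finset.prod_congr rfl h1, Finset.prod_mul_distrib, Finset.prod_ite_eq' (Finset.range n) i,
    if_pos (Finset.mem_range.2 hi)]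

section

variable {B n : ℕ} {G : List ℕ} (hG : ∀ g ∈ G, ∃ i < n, g = B ^ i)

include hG

theorem digit_le {t m : ℕ} (ht : t < B) (hm : m ∈ codes G t) : ∀ i : ℕ, m / B ^ i % B ≤ t := by
  induction t generalizing m with
  | zero =>
    have : m = 0 := by simpa [codes] using hm
    subst this
    simp
  | succ t ih =>
    rcases mem_codes_succ.1 hm with h | ⟨b, hb, g, hg, rfl⟩
    · exact fun i => (ih (by omega) h i).trans (by omega)
    · obtain ⟨j, _, rfl⟩ := hG g hg
      intro i
      have h1 := ih (by omega) hb i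
      have h2 := ih (by omega) hb j
      rw [digit_add (by omega) i]
      split_ifs <;> omega

theorem yval_mul (ξ : ℕ → ℂ) {s t b c : ℕ} (hst : s + t < B) (hb : b ∈ codes G s)
    (hc : c ∈ codes G t) : yval B n ξ (b + c) = yval B n ξ b * yval B n ξ c := by
  induction t generalizing c with
  | zero =>
    have : c = 0 := by simpa [codes] using hc
    subst this
    rw [add_zero, yval_zero, mul_one]
  | succ t ih =>
    rcases mem_codes_succ.1 hc with h | ⟨c', hc', g, hg, rfl⟩
    · exact ih (by omega) h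
    · obtain ⟨j, hj, rfl⟩ := hG g hg
      have h1 := digit_le hG (t := s + t) (by omega) (add_mem_codes hb hc') j
      have h2 := digit_le hG (t := t) (by omega) hc' j
      rw [← add_assoc, yval_add ξ hj (by omega), yval_add ξ hj (by omega), ih (by omega) hc',
        mul_assoc]

end

/-! ### The matrix of a system -/

/-- The number of bits of a digit. -/
def wd (d : ℕ) : ℕ := 2 * d + 3

theorem wd_lt (d : ℕ) : 2 * d + 3 < 2 ^ wd d := Nat.lt_two_pow_self

/-- The labels of the matrix of a system. -/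
def redLabs (k d : ℕ) (cs : List Con) : List (ℕ × ℕ) :=
  labs k (codes (gens (wd d) (vars cs)) d) (rels (wd d) d cs).length

/-- The matrix of a system. -/
def redMat (k d : ℕ) (cs : List Con) : VarMatrix := gmatOf k (redLabs k d cs) (rels (wd d) d cs)

theorem mem_vars {cs : List Con} {c : Con} (hc : c ∈ cs) :
    c.2.1 ∈ vars cs ∧ c.2.2.1 ∈ vars cs ∧ c.2.2.2 ∈ vars cs := by
  refine ⟨?_, ?_, ?_⟩ <;> refine List.mem_flatMap.2 ⟨c, hc, ?_⟩ <;> simp

theorem evE_rel (w : ℕ) (vs : List ℕ) (c : Con) (m : ℕ) :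
    EvE (rel w vs c m).1 ∧ EvE (rel w vs c m).2.1 ∧ EvE (rel w vs c m).2.2 := by
  unfold rel
  split_ifs
  · exact ⟨evE_hv _, evE_hv _, evE_hv _⟩
  · exact ⟨evE_hv _, trivial, evE_hv _⟩
  · exact ⟨evE_hv _, trivial, evE_hv _⟩

/-- A solvable system has a matrix of rank at most `2 k`. -/
theorem redMat_complete {k : ℕ} (hk : 0 < k) (d : ℕ) {cs : List Con} {x : ℕ → ℂ}
    (hx : ∀ c ∈ cs, SatC x c) : ∃ a : ℕ → ℂ, (atC (redMat k d cs) a).rank ≤ 2 * k := by
  classical
  set vs := vars cs with hvs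
  set B := 2 ^ wd d with hB
  set n := vs.length with hn
  have hBd : 2 * d + 3 < B := wd_lt d
  -- the values of the variables
  obtain ⟨ξ, hξ⟩ : ∃ ξ : ℕ → ℂ, ∀ v ∈ vs, ξ (vidx vs v) = x v := by
    refine ⟨fun i => if h : ∃ v ∈ vs, vidx vs v = i then x h.choose else 0, fun v hv => ?_⟩
    have h : ∃ v' ∈ vs, vidx vs v' = vidx vs v := ⟨v, hv, rfl⟩
    simp only [dif_pos h]
    rw [vidx_inj h.choose_spec.1 hv h.choose_spec.2]
  have hcode : ∀ v, vcode (wd d) vs v = B ^ vidx vs v := fun v => by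
    rw [vcode, hB, pow_mul]
  have hG : ∀ g ∈ gens (wd d) vs, ∃ i < n, g = B ^ i := by
    intro g hg
    obtain ⟨v, hv, rfl⟩ := List.mem_map.1 hg
    exact ⟨vidx vs v, vidx_lt_length hv, hcode v⟩
  have hgm : ∀ v ∈ vs, vcode (wd d) vs v ∈ gens (wd d) vs := fun v hv => List.mem_map.2 ⟨v, hv, rfl⟩
  set G := gens (wd d) vs with hGdef
  let a : ℕ → ℂ := fun v => yval B n ξ (v / 2)
  have hmom : ∀ m, mom a m = yval B n ξ m := by
    intro m
    unfold mom hv
    split_ifs with h
    · subst h; rw [yval_zero]; simp [evC]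
    · show yval B n ξ (2 * m / 2) = _
      congr 1
      omega
  -- adding one variable
  have hone : ∀ t m v, m ∈ codes G t → t + 1 < B → v ∈ vs →
      yval B n ξ (m + vcode (wd d) vs v) = yval B n ξ m * x v := by
    intro t m v hm ht hv
    have h1 := digit_le hG (t := t) (by omega) hm (vidx vs v)
    rw [hcode, yval_add ξ (vidx_lt_length hv) (by omega), hξ v hv]
  refine exists_rank_le hk (a := a) ?_ ?_ ?_
  · intro b hb c hc
    rw [hmom, hmom, hmom]
    exact yval_mul hG ξ (s := d) (t := d) (by omega) hb hc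
  · intro r hr
    unfold rels at hr
    rw [List.mem_flatMap] at hr
    obtain ⟨c, _, hr⟩ := hr
    obtain ⟨m, _, rfl⟩ := List.mem_map.1 hr
    exact evE_rel _ _ _ _
  · intro r hr
    unfold rels at hr
    rw [List.mem_flatMap] at hr
    obtain ⟨c, hc, hr⟩ := hr
    obtain ⟨m, hm, rfl⟩ := List.mem_map.1 hr
    rw [← hvs, ← hGdef] at hm
    obtain ⟨h1, h2, h3⟩ := mem_vars hc
    rw [← hvs] at h1 h2 h3 ⊢
    have hsat := hx c hc
    unfold SatC at hsat
    have hc0 : evC a (Entry.const 0) = 0 := by simp [evC]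
    unfold rel
    split_ifs at hsat ⊢ with e1 e2
    · show mom a _ + mom a _ = mom a _
      rw [hmom, hmom, hmom, hone (2 * d) m _ hm (by omega) h1, hone (2 * d) m _ hm (by omega) h2,
        hone (2 * d) m _ hm (by omega) h3, ← hsat]
      ring
    · show mom a _ + evC a (Entry.const 0) = mom a _
      have hm' : m + vcode (wd d) vs c.2.1 ∈ codes G (2 * d + 1) :=
        mem_codes_succ.2 (Or.inr ⟨m, hm, _, hgm _ h1, rfl⟩)
      rw [hmom, hmom, hc0, hone (2 * d + 1) _ _ hm' (by omega) h2,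
        hone (2 * d) m _ hm (by omega) h1, hone (2 * d) m _ hm (by omega) h3, ← hsat]
      ring
    · show mom a _ + evC a (Entry.const 0) = mom a _
      rw [hmom, hmom, hc0, hone (2 * d) m _ hm (by omega) h1, hsat]
      ring

/-- If the matrix has small rank somewhere then the system is solvable. -/
theorem redMat_sound {k d R : ℕ} {cs : List Con} (hR : R + 2 * k < k * k) (hRd : R ≤ d)
    {a : ℕ → ℂ} (h : (atC (redMat k d cs) a).rank ≤ R) : ∃ x : ℕ → ℂ, ∀ c ∈ cs, SatC x c := by
  set vs := vars cs with hvs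
  obtain ⟨h1, h2⟩ := of_rank_le (zero_mem_codes (gens (wd d) vs) d) hR hRd h
  obtain ⟨ξ, hadd, hmul, hone⟩ := exists_point (y := mom a) (G := gens (wd d) vs)
    (by rw [mom_zero]; exact one_ne_zero) h1
  refine ⟨fun v => ξ (vcode (wd d) vs v), fun c hc => ?_⟩
  have hrel : ∀ m ∈ codes (gens (wd d) vs) (2 * d), rel (wd d) vs c m ∈ rels (wd d) d cs := by
    intro m hm
    exact List.mem_flatMap.2 ⟨c, hc, List.mem_map.2 ⟨m, hm, rfl⟩⟩
  have hgm : ∀ v ∈ vs, vcode (wd d) vs v ∈ gens (wd d) vs := fun v hv => List.mem_map.2 ⟨v, hv, rfl⟩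
  obtain ⟨m1, m2, m3⟩ := mem_vars hc
  have hc0 : evC a (Entry.const 0) = 0 := by simp [evC]
  unfold SatC
  unfold rel at hrel
  split_ifs at hrel ⊢ with e1 e2
  · exact hadd _ (hgm _ m1) _ (hgm _ m2) _ (hgm _ m3) fun m hm => h2 _ (hrel m hm)
  · refine hmul _ (hgm _ m1) _ (hgm _ m2) _ (hgm _ m3) fun m hm => ?_
    have := h2 _ (hrel m hm)
    simp only [hc0, add_zero] at this
    exact this
  · refine hone _ (hgm _ m1) fun m hm => ?_
    have := h2 _ (hrel m hm)
    simp only [hc0, add_zero] at this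
    exact this

end Pool.Agent.KS6_28.MinRank
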