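import Pool.Graph.R_seed8.H606R2.MinRank.PolyT
import Pool.Agent.KS6_28.MinRank.CRed

/-!
# The reduction is computable in polynomial time
-/

namespace Pool.Agent.NPC.KS28

open Pool.Agent.KS6_28.MinRank Pool.Agent.H606R2.MinRank Pool.Agent.NPC.H606MinRank

section

variable {α β : Type} [TEnc α] [TEnc β]

theorem poly_two_pow {n : α → ℕ} (hn : UPoly n) : Poly (fun a => 2 ^ n a) := by
  have h1 : Poly (fun a => List.replicate (n a) false) :=
    (Poly.map (F := fun _ _ => false) hn (Poly.const false)).congr fun a => by simp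
  refine (Poly.valBits (Poly.append h1 (Poly.const [true]))).congr fun a => ?_
  rw [valB_replicate_false]
  simp

theorem upoly_vidx {vs : α → List ℕ} {v : α → ℕ} (hvs : Poly vs) (hv : Poly v) :
    UPoly (fun a => vidx (vs a) (v a)) :=
  UPoly.length (Poly.filter (p := fun a u => decide (u < v a)) hvs
    (Poly.decide_lt (Poly.snd Poly.id) (hv.comp (Poly.fst Poly.id))))

theorem poly_vcode (w : ℕ) {vs : α → List ℕ} {v : α → ℕ} (hvs : Poly vs) (hv : Poly v) :
    Poly (fun a => vcode w (vs a) (v a)) :=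
  poly_two_pow (UPoly.mul (UPoly.const w) (upoly_vidx hvs hv))

theorem poly_gens (w : ℕ) {vs : α → List ℕ} (hvs : Poly vs) : Poly (fun a => gens w (vs a)) :=
  Poly.map (F := fun a v => vcode w (vs a) v) hvs
    (poly_vcode w (hvs.comp (Poly.fst Poly.id)) (Poly.snd Poly.id))

theorem poly_codes {G : α → List ℕ} (hG : Poly G) : ∀ t : ℕ, Poly (fun a => codes (G a) t)
  | 0 => Poly.const [0]
  | t + 1 => by
    refine Poly.flatMap (F := fun a b => b :: (G a).map fun g => b + g) (poly_codes hG t) ?_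
    refine Poly.cons (Poly.snd Poly.id) ?_
    exact Poly.map (F := fun (p : α × ℕ) g => p.2 + g) (hG.comp (Poly.fst Poly.id))
      (Poly.add (Poly.snd (Poly.fst Poly.id)) (Poly.snd Poly.id))

theorem poly_hv {m : α → ℕ} (hm : Poly m) : Poly (fun a => hv (m a)) :=
  Poly.ite (Poly.decide_eq hm (Poly.const 0)) (Poly.const _) (poly_var (Poly.mul (Poly.const 2) hm))

theorem poly_vars {cs : α → List Con} (hcs : Poly cs) : Poly (fun a => vars (cs a)) := by
  refine Poly.flatMap (F := fun _ (c : Con) => [c.2.1, c.2.2.1, c.2.2.2]) hcs ?_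
  have hc : Poly (fun p : α × Con => p.2) := Poly.snd Poly.id
  exact Poly.cons (Poly.fst (Poly.snd hc)) (Poly.cons (Poly.fst (Poly.snd (Poly.snd hc)))
    (Poly.cons (Poly.snd (Poly.snd (Poly.snd hc))) (Poly.const [])))

theorem poly_rel (w : ℕ) {vs : α → List ℕ} {c : α → Con} {m : α → ℕ} (hvs : Poly vs) (hc : Poly c)
    (hm : Poly m) : Poly (fun a => rel w (vs a) (c a) (m a)) := by
  have h1 := poly_vcode w hvs (Poly.fst (Poly.snd hc))
  have h2 := poly_vcode w hvs (Poly.fst (Poly.snd (Poly.snd hc)))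
  have h3 := poly_vcode w hvs (Poly.snd (Poly.snd (Poly.snd hc)))
  refine Poly.ite (Poly.decide_eq (Poly.fst hc) (Poly.const 0)) ?_
    (Poly.ite (Poly.decide_eq (Poly.fst hc) (Poly.const 1)) ?_ ?_)
  · exact Poly.pair (poly_hv (Poly.add hm h1)) (Poly.pair (poly_hv (Poly.add hm h2))
      (poly_hv (Poly.add hm h3)))
  · exact Poly.pair (poly_hv (Poly.add (Poly.add hm h1) h2)) (Poly.pair (Poly.const _)
      (poly_hv (Poly.add hm h3)))
  · exact Poly.pair (poly_hv (Poly.add hm h1)) (Poly.pair (Poly.const _) (poly_hv hm))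

theorem poly_rels (w d : ℕ) {cs : α → List Con} (hcs : Poly cs) :
    Poly (fun a => rels w d (cs a)) := by
  refine Poly.flatMap (F := fun a c => (codes (gens w (vars (cs a))) (2 * d)).map fun m =>
    rel w (vars (cs a)) c m) hcs ?_
  have hcs' := hcs.comp (Poly.fst (Poly.id (α := α × Con)))
  refine Poly.map (F := fun (p : α × Con) m => rel w (vars (cs p.1)) p.2 m)
    (poly_codes (poly_gens w (poly_vars hcs')) (2 * d)) ?_
  exact poly_rel w (poly_vars (hcs'.comp (Poly.fst Poly.id))) (Poly.snd (Poly.fst Poly.id))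
    (Poly.snd Poly.id)

theorem poly_labs (k : ℕ) {S : α → List ℕ} {n : α → ℕ} (hS : Poly S) (hn : UPoly n) :
    Poly (fun a => labs k (S a) (n a)) := by
  refine Poly.append ?_ ?_
  · exact Poly.map (F := fun _ a => (0, a)) hS (Poly.pair (Poly.const 0) (Poly.snd Poly.id))
  · refine Poly.flatMap (F := fun _ j => (List.range (k * k)).map fun p => (j + 1, p)) hn.range ?_
    refine Poly.map (F := fun (p : α × ℕ) q => (p.2 + 1, q)) (Poly.const (List.range (k * k))) ?_
    exact Poly.pair (Poly.add (Poly.snd (Poly.fst Poly.id)) (Poly.const 1)) (Poly.snd Poly.id)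

theorem poly_aent (k : ℕ) {r : α → Rel} {p q : α → ℕ} (hr : Poly r) (hp : Poly p) (hq : Poly q) :
    Poly (fun a => aent k (r a) (p a) (q a)) := by
  have hk : Poly (fun _ : α => k) := Poly.const k
  exact Poly.ite (Poly.decide_eq (Poly.div hp hk) (Poly.div hq hk))
    (Poly.ite (Poly.decide_eq (Poly.mod hp hk) (Poly.mod hq hk)) (Poly.snd (Poly.snd hr))
      (Poly.fst hr))
    (Poly.ite (Poly.decide_eq (Poly.mod hp hk) (Poly.mod hq hk)) (Poly.fst (Poly.snd hr))
      (Poly.const _))

theorem poly_gent (k : ℕ) {N i j : α → ℕ} {rs : α → List Rel} {l l' : α → ℕ × ℕ} (hN : Poly N)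
    (hi : Poly i) (hj : Poly j) (hrs : Poly rs) (hl : Poly l) (hl' : Poly l') :
    Poly (fun a => gent k (N a) (rs a) (i a) (j a) (l a) (l' a)) := by
  refine Poly.ite (Poly.decide_eq (Poly.fst hl) (Poly.fst hl')) ?_ ?_
  · refine Poly.ite (Poly.decide_eq (Poly.fst hl) (Poly.const 0)) ?_ ?_
    · exact poly_hv (Poly.add (Poly.snd hl) (Poly.snd hl'))
    · exact poly_aent k (Poly.getD hrs (Poly.sub (Poly.fst hl) (Poly.const 1)) (Poly.const rdum))
        (Poly.snd hl) (Poly.snd hl')
  · exact poly_var (Poly.add (Poly.mul (Poly.const 2) (Poly.add (Poly.mul hi hN) hj))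
      (Poly.const 1))

theorem poly_growsOf (k : ℕ) {L : α → List (ℕ × ℕ)} {rs : α → List Rel} (hL : Poly L)
    (hrs : Poly rs) : Poly (fun a => growsOf k (L a) (rs a)) := by
  have hU : UPoly (fun a => (L a).length) := UPoly.length hL
  refine Poly.map (F := fun a i => (List.range (L a).length).map fun j =>
    gent k (L a).length (rs a) i j ((L a).getD i (0, 0)) ((L a).getD j (0, 0))) hU.range ?_
  refine Poly.map (F := fun (p : α × ℕ) j =>
    gent k (L p.1).length (rs p.1) p.2 j ((L p.1).getD p.2 (0, 0)) ((L p.1).getD j (0, 0)))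
    (hU.comp (Poly.fst Poly.id)).range ?_
  have ha : Poly (fun p : (α × ℕ) × ℕ => p.1.1) := Poly.fst (Poly.fst Poly.id)
  have hi : Poly (fun p : (α × ℕ) × ℕ => p.1.2) := Poly.snd (Poly.fst Poly.id)
  have hj : Poly (fun p : (α × ℕ) × ℕ => p.2) := Poly.snd Poly.id
  have hL' := hL.comp ha
  exact poly_gent k (Poly.length hL') hi hj (hrs.comp ha) (Poly.getD hL' hi (Poly.const (0, 0)))
    (Poly.getD hL' hj (Poly.const (0, 0)))

theorem poly_redMat (k d : ℕ) {cs : α → List Con} (hcs : Poly cs) :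
    Poly (fun a => redMat k d (cs a)) := by
  have h1 := poly_rels (wd d) d hcs
  have h2 : Poly (fun a => redLabs k d (cs a)) :=
    poly_labs k (poly_codes (poly_gens (wd d) (poly_vars hcs)) d) (UPoly.length h1)
  exact Poly.of_toT ((poly_growsOf k h2 h1).toT'.congr fun _ => rfl)

end

theorem poly_toFormula : Poly CFormula.toFormula :=
  Poly.of_toT ((Poly.id (α := CFormula)).toT'.congr fun _ => rfl)

/-- The reduction. -/
def redC (k d : ℕ) (φ : CFormula) : VarMatrix × ℕ :=
  (redMat k d (sysOf φ.toFormula.code), 4 * k)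

theorem poly_redC (k d : ℕ) : Poly (redC k d) :=
  Poly.pair (poly_redMat k d (poly_sysOf.comp (poly_code.comp poly_toFormula))) (Poly.const _)

/-! ### The gap -/

theorem exists_rank_eq_minRank (M : VarMatrix) : ∃ a : ℕ → ℝ, (M.at a).rank = M.minRank := by
  have hne : {r | ∃ a : ℕ → ℝ, (M.at a).rank = r}.Nonempty := ⟨_, fun _ => 0, rfl⟩
  exact Nat.sInf_mem hne

theorem minRank_le (M : VarMatrix) (a : ℕ → ℝ) : M.minRank ≤ (M.at a).rank :=
  Nat.sInf_le ⟨a, rfl⟩

/-- The minimum rank over the reals is at most twice the rank at any complex point. -/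
theorem minRank_le_two_mul (M : VarMatrix) {a : ℕ → ℂ} {r : ℕ} (h : (atC M a).rank ≤ r) :
    M.minRank ≤ 2 * r := by
  refine (minRank_le M (fun v => (a v).re)).trans ?_
  rw [← map_re_atC]
  exact rank_re_le h

/-- The minimum rank over the reals is at least the minimum rank over the complex numbers. -/
theorem exists_atC_le (M : VarMatrix) : ∃ a : ℕ → ℂ, (atC M a).rank ≤ M.minRank := by
  obtain ⟨a, ha⟩ := exists_rank_eq_minRank M
  refine ⟨fun v => (a v : ℂ), ?_⟩
  rw [← map_ofReal_at, ← ha]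
  exact rank_map_le _ _

/-- For every constant factor the approximation of the minimum rank is `∃ℂ`-hard. -/
theorem existsCHard_gap (ε : ℝ) : ExistsCHard (GapMinRank ε) := by
  obtain ⟨C, hC⟩ := exists_nat_ge (1 + ε)
  -- the parameters
  set k : ℕ := 4 * C + 3 with hk
  set R : ℕ := C * (4 * k) with hR
  have hkR : R + 2 * k < k * k := by
    have : k * k = (4 * C + 3) * k := by rw [← hk]
    rw [this, hR]
    have : C * (4 * k) = 4 * C * k := by ring
    rw [this]
    nlinarith [hk]
  refine ⟨redC k R, polyTimeMap_of_poly (poly_redC k R), fun φ => ⟨fun h => ?_, fun h => ?_⟩⟩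
  · obtain ⟨x, hx⟩ := (sysOf_iffC φ).1 h
    obtain ⟨a, ha⟩ := redMat_complete (k := k) (by omega) R hx
    refine ⟨by simp [redC]; omega, ?_⟩
    have := minRank_le_two_mul _ ha
    show (redMat k R (sysOf φ.toFormula.code)).minRank ≤ 4 * k
    omega
  · refine ⟨by simp [redC]; omega, ?_⟩
    obtain ⟨a, ha⟩ := exists_atC_le (redMat k R (sysOf φ.toFormula.code))
    have hlt : R < (redMat k R (sysOf φ.toFormula.code)).minRank := by
      by_contra hle
      exact h ((sysOf_iffC φ).2 (redMat_sound hkR le_rfl (ha.trans (not_lt.1 hle))))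
    show (1 + ε) * ((4 * k : ℕ) : ℝ) < ((redMat k R (sysOf φ.toFormula.code)).minRank : ℝ)
    have h1 : (1 + ε) * ((4 * k : ℕ) : ℝ) ≤ (R : ℝ) := by
      rw [hR]
      push_cast
      exact mul_le_mul_of_nonneg_right hC (by positivity)
    have h2 : (R : ℝ) < ((redMat k R (sysOf φ.toFormula.code)).minRank : ℝ) := by
      exact_mod_cast hlt
    linarith

end Pool.Agent.NPC.KS28
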