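import Pool.Graph.R_seed8.H606R2.MinRank.Sys2
import Pool.Agent.KS6_28.MinRank.CDefs

/-!
# From sentences over the complex numbers to systems of elementary equations
-/

namespace Pool.Agent.KS6_28.MinRank

open Pool.Agent.NPC Pool.Agent.H606R2.MinRank

/-- The equation holds at `x`. -/
def SatC (x : ℕ → ℂ) (c : Con) : Prop :=
  if c.1 = 0 then x c.2.1 + x c.2.2.1 = x c.2.2.2
  else if c.1 = 1 then x c.2.1 * x c.2.2.1 = x c.2.2.2
  else x c.2.1 = 1

theorem satC_zero {x : ℕ → ℂ} {k t s : ℕ} (h : ∀ c ∈ newCons k t s 0, SatC x c) :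
    x (nm k 0) = 0 := by
  simpa [newCons, tables, nmx, SatC] using h

theorem satC_one {x : ℕ → ℂ} {k t s : ℕ} (h : ∀ c ∈ newCons k t s 1, SatC x c) :
    x (nm k 0) = 1 := by
  simpa [newCons, tables, nmx, SatC] using h

theorem satC_add {x : ℕ → ℂ} {k t s : ℕ} (h : ∀ c ∈ newCons k t s 3, SatC x c) :
    x (nm k 0) = x s + x t := by
  simpa [newCons, tables, nmx, SatC, eq_comm] using h

theorem satC_mul {x : ℕ → ℂ} {k t s : ℕ} (h : ∀ c ∈ newCons k t s 4, SatC x c) :
    x (nm k 0) = x s * x t := by
  simpa [newCons, tables, nmx, SatC, eq_comm] using h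

theorem satC_and {x : ℕ → ℂ} {k t s : ℕ} (h : ∀ c ∈ newCons k t s 8, SatC x c) :
    x (nm k 0) = x s * x t := by
  simpa [newCons, tables, nmx, SatC, eq_comm] using h

theorem satC_not {x : ℕ → ℂ} {k t s : ℕ} (h : ∀ c ∈ newCons k t s 7, SatC x c) :
    x (nm k 0) = 1 - x t := by
  have : x (nm k 1) = 1 ∧ x (nm k 0) + x t = x (nm k 1) := by
    simpa [newCons, tables, nmx, SatC] using h
  linear_combination this.2 + this.1

theorem satC_or {x : ℕ → ℂ} {k t s : ℕ} (h : ∀ c ∈ newCons k t s 9, SatC x c) :
    x (nm k 0) = x s + x t - x s * x t := by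
  have : x s * x t = x (nm k 1) ∧ x (nm k 0) + x (nm k 1) = x (nm k 2) ∧
      x s + x t = x (nm k 2) := by
    simpa [newCons, tables, nmx, SatC] using h
  linear_combination this.1 + this.2.1 - this.2.2

theorem satC_eq {x : ℕ → ℂ} {k t s : ℕ} (h : ∀ c ∈ newCons k t s 5, SatC x c) :
    (x s = x t → x (nm k 0) = 1) ∧ (x s ≠ x t → x (nm k 0) = 0) := by
  have h' : x t + x (nm k 1) = x s ∧ x (nm k 2) = 0 ∧
      x (nm k 0) * x (nm k 1) = x (nm k 2) ∧ x (nm k 3) = 1 ∧
      x (nm k 0) + x (nm k 4) = x (nm k 3) ∧ x (nm k 1) * x (nm k 5) = x (nm k 4) := by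
    simpa [newCons, tables, nmx, SatC] using h
  obtain ⟨h1, h2, h3, h4, h5, h6⟩ := h'
  rw [h2] at h3
  rw [h4] at h5
  constructor
  · intro e
    have e1 : x (nm k 1) = 0 := by linear_combination h1 + e
    rw [e1, zero_mul] at h6
    linear_combination h5 + h6
  · intro e
    have e1 : x (nm k 1) ≠ 0 := fun h0 => e (by linear_combination h0 - h1)
    rcases mul_eq_zero.1 h3 with h | h
    · exact h
    · exact absurd h e1

theorem soundC_term {x : ℕ → ℂ} (t : Term) : ∀ k, (∀ c ∈ t.cons k, SatC x c) →
    x (t.res k) = cval (fun n => x (2 * n)) t := by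
  induction t with
  | zero => intro k h; exact satC_zero h
  | one => intro k h; exact satC_one h
  | var n => intro k _; rfl
  | add s t ihs iht =>
    intro k h
    simp only [Term.cons, List.mem_append] at h
    have h1 := ihs k (fun c hc => h c (Or.inl hc))
    have h2 := iht _ (fun c hc => h c (Or.inr (Or.inl hc)))
    have h3 := satC_add (fun c hc => h c (Or.inr (Or.inr hc)))
    simp only [Term.res, cval]
    rw [h3, h1, h2]
  | mul s t ihs iht =>
    intro k h
    simp only [Term.cons, List.mem_append] at h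
    have h1 := ihs k (fun c hc => h c (Or.inl hc))
    have h2 := iht _ (fun c hc => h c (Or.inr (Or.inl hc)))
    have h3 := satC_mul (fun c hc => h c (Or.inr (Or.inr hc)))
    simp only [Term.res, cval]
    rw [h3, h1, h2]

theorem soundC {x : ℕ → ℂ} (φ : CFormula) : ∀ k, (∀ c ∈ φ.toFormula.cons k, SatC x c) →
    (φ.Holds (fun n => x (2 * n)) → x (φ.toFormula.res k) = 1) ∧
    (¬ φ.Holds (fun n => x (2 * n)) → x (φ.toFormula.res k) = 0) := by
  induction φ with
  | eq s t =>
    intro k h
    simp only [CFormula.toFormula, Formula.cons, List.mem_append] at h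
    have h1 := soundC_term s k (fun c hc => h c (Or.inl hc))
    have h2 := soundC_term t _ (fun c hc => h c (Or.inr (Or.inl hc)))
    have h3 := satC_eq (fun c hc => h c (Or.inr (Or.inr hc)))
    simp only [CFormula.toFormula, Formula.res, CFormula.Holds]
    rw [← h1, ← h2]
    exact h3
  | not φ ih =>
    intro k h
    simp only [CFormula.toFormula, Formula.cons, List.mem_append] at h
    have h1 := ih k (fun c hc => h c (Or.inl hc))
    have h3 := satC_not (fun c hc => h c (Or.inr hc))
    simp only [CFormula.toFormula, Formula.res, CFormula.Holds]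
    rw [h3]
    constructor
    · intro e; rw [h1.2 e]; norm_num
    · intro e; rw [h1.1 (not_not.1 e)]; norm_num
  | and φ ψ ih ih' =>
    intro k h
    simp only [CFormula.toFormula, Formula.cons, List.mem_append] at h
    have h1 := ih k (fun c hc => h c (Or.inl hc))
    have h2 := ih' _ (fun c hc => h c (Or.inr (Or.inl hc)))
    have h3 := satC_and (fun c hc => h c (Or.inr (Or.inr hc)))
    simp only [CFormula.toFormula, Formula.res, CFormula.Holds]
    rw [h3]
    constructor
    · rintro ⟨e, e'⟩; rw [h1.1 e, h2.1 e']; norm_num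
    · intro e
      by_cases e1 : φ.Holds (fun n => x (2 * n))
      · rw [h2.2 (fun e2 => e ⟨e1, e2⟩)]; norm_num
      · rw [h1.2 e1]; norm_num
  | or φ ψ ih ih' =>
    intro k h
    simp only [CFormula.toFormula, Formula.cons, List.mem_append] at h
    have h1 := ih k (fun c hc => h c (Or.inl hc))
    have h2 := ih' _ (fun c hc => h c (Or.inr (Or.inl hc)))
    have h3 := satC_or (fun c hc => h c (Or.inr (Or.inr hc)))
    simp only [CFormula.toFormula, Formula.res, CFormula.Holds]
    rw [h3]
    constructor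
    · rintro (e | e)
      · rw [h1.1 e]; ring
      · rw [h2.1 e]; ring
    · intro e
      rw [h1.2 (fun e1 => e (Or.inl e1)), h2.2 (fun e1 => e (Or.inr e1))]; norm_num

theorem SatC.congr {x x' : ℕ → ℂ} {c : Con} (h1 : x c.2.1 = x' c.2.1)
    (h2 : x c.2.2.1 = x' c.2.2.1) (h3 : x c.2.2.2 = x' c.2.2.2) (h : SatC x c) : SatC x' c := by
  unfold SatC at h ⊢
  rw [← h1, ← h2, ← h3]
  exact h

/-- Change the values of the auxiliary variables of position `k`. -/
noncomputable def updC (x : ℕ → ℂ) (k : ℕ) (f : ℕ → ℂ) : ℕ → ℂ := fun v =>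
  if v % 2 = 1 ∧ v / 20 = k then f (v / 2 % 10) else x v

theorem updC_nm (x : ℕ → ℂ) (k : ℕ) (f : ℕ → ℂ) {j : ℕ} (hj : j < 10) :
    updC x k f (nm k j) = f j := by
  unfold updC nm
  rw [if_pos (by omega)]
  congr 1
  omega

theorem updC_of {x : ℕ → ℂ} {k : ℕ} {f : ℕ → ℂ} {v : ℕ}
    (h : v % 2 = 0 ∨ v < 20 * k ∨ 20 * (k + 1) ≤ v) : updC x k f v = x v := by
  unfold updC
  rw [if_neg (by omega)]

theorem updC_scope {x : ℕ → ℂ} {k l : ℕ} {f : ℕ → ℂ} {v : ℕ}
    (h : InScope l k v) : updC x k f v = x v := by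
  apply updC_of
  rcases h with h | h
  · exact Or.inl h
  · exact Or.inr (Or.inl h.2)

theorem exists_newC {kind : ℕ} (hk : kind < 10) (hk6 : kind ≠ 6) (x : ℕ → ℂ) {k l top snd : ℕ}
    (ht : InScope l k top) (hs : InScope l k snd) :
    ∃ f : ℕ → ℂ, ∀ c ∈ newCons k top snd kind, SatC (updC x k f) c := by
  have ht' : ∀ f, updC x k f top = x top := fun f => updC_scope ht
  have hs' : ∀ f, updC x k f snd = x snd := fun f => updC_scope hs
  have h0 : ∀ f, updC x k f (nm k 0) = f 0 := fun f => updC_nm x k f (by omega)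
  have h1 : ∀ f, updC x k f (nm k 1) = f 1 := fun f => updC_nm x k f (by omega)
  have h2 : ∀ f, updC x k f (nm k 2) = f 2 := fun f => updC_nm x k f (by omega)
  have h3 : ∀ f, updC x k f (nm k 3) = f 3 := fun f => updC_nm x k f (by omega)
  have h4 : ∀ f, updC x k f (nm k 4) = f 4 := fun f => updC_nm x k f (by omega)
  have h5 : ∀ f, updC x k f (nm k 5) = f 5 := fun f => updC_nm x k f (by omega)
  interval_cases kind
  · refine ⟨fun _ => 0, ?_⟩
    simp [newCons, tables, nmx, SatC, h0]
  · refine ⟨fun _ => 1, ?_⟩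
    simp [newCons, tables, nmx, SatC, h0]
  · refine ⟨fun _ => 1, ?_⟩
    simp [newCons, tables]
  · refine ⟨fun _ => x snd + x top, ?_⟩
    simp [newCons, tables, nmx, SatC, h0, ht', hs']
  · refine ⟨fun _ => x snd * x top, ?_⟩
    simp [newCons, tables, nmx, SatC, h0, ht', hs']
  · by_cases hd : x snd - x top = 0
    · refine ⟨fun j => if j = 0 then 1 else if j = 3 then 1 else 0, ?_⟩
      simp [newCons, tables, nmx, SatC, h0, h1, h2, h3, h4, h5, ht', hs']
      linear_combination -hd
    · refine ⟨fun j => if j = 1 then x snd - x top else if j = 3 then 1 else if j = 4 then 1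
        else if j = 5 then (x snd - x top)⁻¹ else 0, ?_⟩
      simp [newCons, tables, nmx, SatC, h0, h1, h2, h3, h4, h5, ht', hs']
      exact mul_inv_cancel₀ hd
  · exact absurd rfl hk6
  · refine ⟨fun j => if j = 0 then 1 - x top else 1, ?_⟩
    simp [newCons, tables, nmx, SatC, h0, h1, ht']
  · refine ⟨fun _ => x snd * x top, ?_⟩
    simp [newCons, tables, nmx, SatC, h0, ht', hs']
  · refine ⟨fun j => if j = 0 then x snd + x top - x snd * x top else if j = 1 then
      x snd * x top else x snd + x top, ?_⟩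
    simp [newCons, tables, nmx, SatC, h0, h1, h2, ht', hs']

/-- Combine solutions for two parts and for a new symbol. -/
theorem combineC {A B : List Con} {k k1 k2 top snd kind : ℕ} (hkind : kind < 10)
    (hkind6 : kind ≠ 6) (hk : k ≤ k1) (hk' : k1 ≤ k2)
    (hA : ∀ c ∈ A, CScope k k1 c) (hB : ∀ c ∈ B, CScope k1 k2 c)
    (ht : InScope k k2 top) (hs : InScope k k2 snd) {x0 : ℕ → ℂ}
    (h1 : ∃ x, (∀ v, (v % 2 = 0 ∨ v < 20 * k ∨ 20 * k1 ≤ v) → x v = x0 v) ∧ ∀ c ∈ A, SatC x c)
    (h2 : ∀ x1 : ℕ → ℂ, ∃ x, (∀ v, (v % 2 = 0 ∨ v < 20 * k1 ∨ 20 * k2 ≤ v) → x v = x1 v) ∧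
      ∀ c ∈ B, SatC x c) :
    ∃ x, (∀ v, (v % 2 = 0 ∨ v < 20 * k ∨ 20 * (k2 + 1) ≤ v) → x v = x0 v) ∧
      ∀ c ∈ A ++ (B ++ newCons k2 top snd kind), SatC x c := by
  obtain ⟨x1, e1, s1⟩ := h1
  obtain ⟨x2, e2, s2⟩ := h2 x1
  obtain ⟨f, hf⟩ := exists_newC hkind hkind6 x2 ht hs
  refine ⟨updC x2 k2 f, ?_, ?_⟩
  · intro v hv
    rw [updC_of (by omega), e2 v (by omega), e1 v (by omega)]
  · intro c hc
    simp only [List.mem_append] at hc
    rcases hc with hc | hc | hc
    · have key : ∀ v, InScope k k1 v → x1 v = updC x2 k2 f v := by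
        intro v hv
        rw [updC_scope (hv.mono le_rfl hk')]
        rcases hv with hv | hv
        · exact (e2 v (Or.inl hv)).symm
        · exact (e2 v (Or.inr (Or.inl hv.2))).symm
      obtain ⟨g1, g2, g3⟩ := hA c hc
      exact (s1 c hc).congr (key _ g1) (key _ g2) (key _ g3)
    · have key : ∀ v, InScope k1 k2 v → x2 v = updC x2 k2 f v := by
        intro v hv
        rw [updC_scope hv]
      obtain ⟨g1, g2, g3⟩ := hB c hc
      exact (s2 c hc).congr (key _ g1) (key _ g2) (key _ g3)
    · exact hf c hc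

theorem empty_partC {k k2 : ℕ} (x1 : ℕ → ℂ) :
    ∃ x : ℕ → ℂ, (∀ v, (v % 2 = 0 ∨ v < 20 * k ∨ 20 * k2 ≤ v) → x v = x1 v) ∧
      ∀ c ∈ ([] : List Con), SatC x c :=
  ⟨x1, fun _ _ => rfl, by simp⟩

theorem completeC_term (t : Term) : ∀ (k : ℕ) (x0 : ℕ → ℂ), ∃ x : ℕ → ℂ,
    (∀ v, (v % 2 = 0 ∨ v < 20 * k ∨ 20 * (k + t.len) ≤ v) → x v = x0 v) ∧
      ∀ c ∈ t.cons k, SatC x c := by
  induction t with
  | zero =>
    intro k x0
    have := combineC (A := []) (B := []) (k := k) (k1 := k) (k2 := k) (top := 0) (snd := 0)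
      (kind := 0) (by omega) (by omega) le_rfl le_rfl (by simp) (by simp) (inScope_zero _ _)
      (inScope_zero _ _) (empty_partC x0) (fun x1 => empty_partC x1)
    simpa [Term.len, Term.cons] using this
  | one =>
    intro k x0
    have := combineC (A := []) (B := []) (k := k) (k1 := k) (k2 := k) (top := 0) (snd := 0)
      (kind := 1) (by omega) (by omega) le_rfl le_rfl (by simp) (by simp) (inScope_zero _ _)
      (inScope_zero _ _) (empty_partC x0) (fun x1 => empty_partC x1)
    simpa [Term.len, Term.cons] using this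
  | var n => intro k x0; exact ⟨x0, fun _ _ => rfl, by simp [Term.cons]⟩
  | add s t ihs iht =>
    intro k x0
    have := combineC (A := s.cons k) (B := t.cons (k + s.len)) (k := k) (k1 := k + s.len)
      (k2 := k + s.len + t.len) (top := t.res (k + s.len)) (snd := s.res k)
      (kind := 3) (by omega) (by omega) (by omega) (by omega) (s.scope_cons k) (t.scope_cons _)
      ((t.scope_res _).mono (by omega) (by omega)) ((s.scope_res _).mono (by omega) (by omega))
      (ihs k x0) (fun x1 => iht _ x1)
    have e : k + (Term.add s t).len = k + s.len + t.len + 1 := by simp [Term.len]; omega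
    rw [e]
    exact this
  | mul s t ihs iht =>
    intro k x0
    have := combineC (A := s.cons k) (B := t.cons (k + s.len)) (k := k) (k1 := k + s.len)
      (k2 := k + s.len + t.len) (top := t.res (k + s.len)) (snd := s.res k)
      (kind := 4) (by omega) (by omega) (by omega) (by omega) (s.scope_cons k) (t.scope_cons _)
      ((t.scope_res _).mono (by omega) (by omega)) ((s.scope_res _).mono (by omega) (by omega))
      (ihs k x0) (fun x1 => iht _ x1)
    have e : k + (Term.mul s t).len = k + s.len + t.len + 1 := by simp [Term.len]; omega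
    rw [e]
    exact this

theorem completeC (φ : CFormula) : ∀ (k : ℕ) (x0 : ℕ → ℂ), ∃ x : ℕ → ℂ,
    (∀ v, (v % 2 = 0 ∨ v < 20 * k ∨ 20 * (k + φ.toFormula.len) ≤ v) → x v = x0 v) ∧
      ∀ c ∈ φ.toFormula.cons k, SatC x c := by
  induction φ with
  | eq s t =>
    intro k x0
    have := combineC (A := s.cons k) (B := t.cons (k + s.len)) (k := k) (k1 := k + s.len)
      (k2 := k + s.len + t.len) (top := t.res (k + s.len)) (snd := s.res k)
      (kind := 5) (by omega) (by omega) (by omega) (by omega) (s.scope_cons k) (t.scope_cons _)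
      ((t.scope_res _).mono (by omega) (by omega)) ((s.scope_res _).mono (by omega) (by omega))
      (completeC_term s k x0) (fun x1 => completeC_term t _ x1)
    have e : k + (Formula.eq s t).len = k + s.len + t.len + 1 := by simp [Formula.len]; omega
    rw [CFormula.toFormula, e]
    exact this
  | not φ ih =>
    intro k x0
    have := combineC (A := φ.toFormula.cons k) (B := []) (k := k) (k1 := k + φ.toFormula.len)
      (k2 := k + φ.toFormula.len) (top := φ.toFormula.res k) (snd := 0)
      (kind := 7) (by omega) (by omega) (by omega) (by omega) (φ.toFormula.scope_cons k)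
      (by simp) ((φ.toFormula.scope_res _).mono (by omega) (by omega)) (inScope_zero _ _)
      (ih k x0) (fun x1 => empty_partC x1)
    have e : k + (Formula.not φ.toFormula).len = k + φ.toFormula.len + 1 := by
      simp [Formula.len]; omega
    rw [CFormula.toFormula, e]
    exact this
  | and φ ψ ih ih' =>
    intro k x0
    have := combineC (A := φ.toFormula.cons k) (B := ψ.toFormula.cons (k + φ.toFormula.len))
      (k := k) (k1 := k + φ.toFormula.len)
      (k2 := k + φ.toFormula.len + ψ.toFormula.len)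
      (top := ψ.toFormula.res (k + φ.toFormula.len)) (snd := φ.toFormula.res k)
      (kind := 8) (by omega) (by omega) (by omega) (by omega) (φ.toFormula.scope_cons k)
      (ψ.toFormula.scope_cons _)
      ((ψ.toFormula.scope_res _).mono (by omega) (by omega))
      ((φ.toFormula.scope_res _).mono (by omega) (by omega))
      (ih k x0) (fun x1 => ih' _ x1)
    have e : k + (Formula.and φ.toFormula ψ.toFormula).len =
        k + φ.toFormula.len + ψ.toFormula.len + 1 := by simp [Formula.len]; omega
    rw [CFormula.toFormula, e]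
    exact this
  | or φ ψ ih ih' =>
    intro k x0
    have := combineC (A := φ.toFormula.cons k) (B := ψ.toFormula.cons (k + φ.toFormula.len))
      (k := k) (k1 := k + φ.toFormula.len)
      (k2 := k + φ.toFormula.len + ψ.toFormula.len)
      (top := ψ.toFormula.res (k + φ.toFormula.len)) (snd := φ.toFormula.res k)
      (kind := 9) (by omega) (by omega) (by omega) (by omega) (φ.toFormula.scope_cons k)
      (ψ.toFormula.scope_cons _)
      ((ψ.toFormula.scope_res _).mono (by omega) (by omega))
      ((φ.toFormula.scope_res _).mono (by omega) (by omega))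
      (ih k x0) (fun x1 => ih' _ x1)
    have e : k + (Formula.or φ.toFormula ψ.toFormula).len =
        k + φ.toFormula.len + ψ.toFormula.len + 1 := by simp [Formula.len]; omega
    rw [CFormula.toFormula, e]
    exact this

/-- The system of a sentence is solvable over `ℂ` iff the sentence is true in `ℂ`. -/
theorem sysOf_iffC (φ : CFormula) :
    ETC φ ↔ ∃ x : ℕ → ℂ, ∀ c ∈ sysOf φ.toFormula.code, SatC x c := by
  rw [sysOf_code]
  constructor
  · rintro ⟨y, hy⟩
    obtain ⟨x, hx, hs⟩ := completeC φ 0 (fun v => y (v / 2))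
    refine ⟨x, fun c hc => ?_⟩
    rw [List.mem_append] at hc
    rcases hc with hc | hc
    · exact hs c hc
    · rw [List.mem_singleton] at hc
      subst hc
      have e : (fun n => x (2 * n)) = y := by
        funext n
        rw [hx _ (by omega)]
        congr 1
        omega
      have := (soundC φ 0 hs).1 (by rw [e]; exact hy)
      simp [SatC, this]
  · rintro ⟨x, hx⟩
    refine ⟨fun n => x (2 * n), ?_⟩
    by_contra hn
    have h1 := (soundC φ 0 (fun c hc => hx c (List.mem_append_left _ hc))).2 hn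
    have h2 := hx (2, φ.toFormula.res 0, 0, 0)
      (List.mem_append_right _ (List.mem_singleton.2 rfl))
    simp [SatC, h1] at h2

end Pool.Agent.KS6_28.MinRank
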