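import Pool.Agent.KS6_28.MinRank.ToC

/-!
# The sentence of a matrix, over the real numbers
-/

namespace Pool.Agent.KS6_28.MinRank

open Pool.Agent.NPC Pool.Agent.H606R2.MinRank Pool.Agent.NPC.KS28

theorem eval_sumT (y : ℕ → ℝ) (l : List Term) : (sumT l).eval y = (l.map (Term.eval y)).sum := by
  induction l with
  | nil => rfl
  | cons t l ih =>
    have : sumT (t :: l) = Term.add t (sumT l) := rfl
    rw [this, Term.eval, ih, List.map_cons, List.sum_cons]

theorem holdsR_conj (y : ℕ → ℝ) (l : List CFormula) :
    (conj l).toFormula.Holds y ↔ ∀ φ ∈ l, φ.toFormula.Holds y := by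
  induction l with
  | nil => simp [conj, CFormula.toFormula, Formula.Holds]
  | cons φ l ih =>
    have : conj (φ :: l) = CFormula.and φ (conj l) := rfl
    rw [this, CFormula.toFormula, Formula.Holds, ih, List.forall_mem_cons]

theorem eval_natT (y : ℕ → ℝ) (l : List Bool) : (natT l).eval y = (valB l : ℝ) := by
  induction l with
  | nil => simp [natT, Term.eval, valB]
  | cons b l ih =>
    have : natT (b :: l) = Term.add (if b then Term.one else Term.zero)
      (Term.mul (Term.add Term.one Term.one) (natT l)) := rfl
    have hv : valB (b :: l) = (if b then 1 else 0) + 2 * valB l := by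
      cases b <;> simp [valB]
    rw [this, Term.eval, Term.eval, ih, hv]
    cases b
    · simp only [Term.eval, Bool.false_eq_true, if_false]
      push_cast
      ring
    · simp only [Term.eval, if_true]
      push_cast
      ring

theorem qpos_sub_qnegR (q : ℚ) : (q.den : ℝ) * (q : ℝ) + (qneg q : ℝ) = (qpos q : ℝ) := by
  have h1 := qpos_sub_qneg q
  have h2 := congrArg Complex.re h1
  simpa using h2

theorem holdsR_eqn (y : ℕ → ℝ) (S : Term) (e : Entry) :
    (eqn S e).toFormula.Holds y ↔ S.eval y = e.eval (fun i => y (3 * i)) := by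
  cases e with
  | const q =>
    have h0 : (q.den : ℝ) ≠ 0 := by exact_mod_cast q.den_nz
    simp only [eqn, CFormula.toFormula, Formula.Holds, Term.eval, eval_natT, valB_bits, Entry.eval]
    rw [← qpos_sub_qnegR q]
    constructor
    · intro h
      exact mul_left_cancel₀ h0 (add_right_cancel h)
    · intro h; rw [h]
  | var i => simp only [eqn, CFormula.toFormula, Formula.Holds, Term.eval, Entry.eval]

theorem at_apply (M : VarMatrix) (a : ℕ → ℝ) (i j : Fin M.rows.length) :
    M.at a i j = (entAt M.rows i j).eval a := by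
  have h1 : (M.rows[i.1]).length = M.rows.length := M.square _ (List.getElem_mem _)
  unfold VarMatrix.at entAt
  rw [Matrix.of_apply]
  congr 1
  rw [List.getD_eq_getElem M.rows [] i.2, List.getD_eq_getElem]

theorem holdsR_toC (M : VarMatrix) (r : ℕ) (y : ℕ → ℝ) :
    (toC (M, r)).toFormula.Holds y ↔ ∀ i j : Fin M.rows.length,
      ∑ l ∈ Finset.range (min r M.rows.length), y (uvar (min r M.rows.length) i l) *
        y (wvar (min r M.rows.length) j l) = M.at (fun v => y (3 * v)) i j := by
  rw [toC, holdsR_conj]
  simp only [eqList, List.mem_flatMap, List.mem_range, List.mem_map]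
  set R := min r M.rows.length
  have hval : ∀ i j, (prodT R i j).eval y =
      ∑ l ∈ Finset.range R, y (uvar R i l) * y (wvar R j l) := by
    intro i j
    rw [prodT, eval_sumT, List.map_map, Finset.sum_range, ← List.sum_ofFn]
    congr 1
    rw [List.ofFn_eq_map, ← List.map_coe_finRange_eq_range, List.map_map]
    rfl
  constructor
  · intro h i j
    have := h (eqn (prodT R i j) (entAt M.rows i j)) ⟨i, i.2, j, j.2, rfl⟩
    rw [holdsR_eqn, hval] at this
    rw [this, at_apply]
  · rintro h _ ⟨i, hi, j, hj, rfl⟩
    rw [holdsR_eqn, hval]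
    have := h ⟨i, hi⟩ ⟨j, hj⟩
    rw [this, at_apply]

/-- The sentence says that the rank is at most `r` at some real point. -/
theorem etr_toC (M : VarMatrix) (r : ℕ) :
    ETR (toC (M, r)).toFormula ↔ ∃ a : ℕ → ℝ, (M.at a).rank ≤ r := by
  set N := M.rows.length with hN
  constructor
  · rintro ⟨y, hy⟩
    rw [holdsR_toC] at hy
    refine ⟨fun v => y (3 * v), ?_⟩
    have h1 : M.at (fun v => y (3 * v)) =
        (Matrix.of fun (i : Fin M.rows.length) (l : Fin (min r M.rows.length)) =>
          y (uvar (min r M.rows.length) i l)) *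
        (Matrix.of fun (l : Fin (min r M.rows.length)) (j : Fin M.rows.length) =>
          y (wvar (min r M.rows.length) j l)) := by
      ext i j
      rw [← hy i j, Matrix.mul_apply, Finset.sum_range]
      rfl
    rw [h1]
    exact (rank_le_of_factor _ _).trans (min_le_left _ _)
  · rintro ⟨a, ha⟩
    have h1 : (M.at a).rank ≤ min r M.rows.length :=
      le_min ha ((Matrix.rank_le_card_width _).trans (by simp))
    obtain ⟨R, hR⟩ : ∃ R, R = min r M.rows.length := ⟨_, rfl⟩
    rw [← hR] at h1
    obtain ⟨U, V, hUV⟩ := exists_factor (M.at a) h1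
    let y : ℕ → ℝ := fun v =>
      if v % 3 = 0 then a (v / 3)
      else if v % 3 = 1 then
        (if h : v / 3 / (R + 1) < M.rows.length ∧ v / 3 % (R + 1) < R then
          U ⟨v / 3 / (R + 1), h.1⟩ ⟨v / 3 % (R + 1), h.2⟩ else 0)
      else (if h : v / 3 / (R + 1) < M.rows.length ∧ v / 3 % (R + 1) < R then
          V ⟨v / 3 % (R + 1), h.2⟩ ⟨v / 3 / (R + 1), h.1⟩ else 0)
    have hdiv : ∀ i l, l < R → (i * (R + 1) + l) / (R + 1) = i := by
      intro i l hl
      rw [Nat.add_comm, Nat.add_mul_div_right _ _ (by omega), Nat.div_eq_of_lt (by omega)]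
      omega
    have hmod : ∀ i l, l < R → (i * (R + 1) + l) % (R + 1) = l := by
      intro i l hl
      rw [Nat.add_comm, Nat.add_mul_mod_self_right, Nat.mod_eq_of_lt (by omega)]
    have hU : ∀ (i : Fin M.rows.length) (l : Fin R), y (uvar R i l) = U i l := by
      intro i l
      have e1 : uvar R i l % 3 = 1 := by unfold uvar; omega
      have e2 : uvar R i l / 3 = i * (R + 1) + l := by unfold uvar; omega
      simp only [y]
      rw [if_neg (by omega), if_pos e1, dif_pos (by rw [e2, hdiv _ _ l.2, hmod _ _ l.2]; exact ⟨i.2, l.2⟩)]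
      congr 1
      · apply Fin.ext; simp only [e2]; exact hdiv _ _ l.2
      · apply Fin.ext; simp only [e2]; exact hmod _ _ l.2
    have hV : ∀ (j : Fin M.rows.length) (l : Fin R), y (wvar R j l) = V l j := by
      intro j l
      have e1 : wvar R j l % 3 = 2 := by unfold wvar; omega
      have e2 : wvar R j l / 3 = j * (R + 1) + l := by unfold wvar; omega
      simp only [y]
      rw [if_neg (by omega), if_neg (by omega),
        dif_pos (by rw [e2, hdiv _ _ l.2, hmod _ _ l.2]; exact ⟨j.2, l.2⟩)]
      congr 1
      · apply Fin.ext; simp only [e2]; exact hmod _ _ l.2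
      · apply Fin.ext; simp only [e2]; exact hdiv _ _ l.2
    refine ⟨y, ?_⟩
    rw [holdsR_toC, ← hR]
    intro i j
    have h3 : (fun v => y (3 * v)) = a := by
      funext v
      simp only [y]
      rw [if_pos (by omega)]
      congr 1
      omega
    rw [h3, hUV, Matrix.mul_apply, Finset.sum_range]
    exact Finset.sum_congr rfl fun l _ => by rw [hU, hV]

end Pool.Agent.KS6_28.MinRank
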