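import Pool.Graph.R_seed8.H642R2.TMSim
import Pool.Graph.R_seed8.NPC.Sat
import Pool.Graph.R_seed8.Results.MP_3930bf_lc.GapHard
import Pool.Agent.KS6_28.MinRank.ToR

/-!
# The complexity of approximating the minimum rank
-/

namespace Pool.Agent.KS6_28.MinRank

open Pool.Agent.NPC Pool.Agent.H606R2.MinRank

/-- A promise problem is in `∃ℝ` if it reduces to `ETR`: a polynomial-time computable map sends
yes-instances to true sentences and no-instances to false sentences. -/
def InExistsR {α : Type} [TEnc α] (Q : Promise α) : Prop :=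
  ∃ f : α → Formula, PolyTimeMap f ∧ ∀ a, (Q.yes a → ETR (f a)) ∧ (Q.no a → ¬ ETR (f a))

/-- The existential theory of the reals reduces to the existential theory of the complex numbers,
by a polynomial-time many-one reduction (so `∃ℝ = ∃ℂ`). -/
def ETRReducesToETC : Prop := ∃ f : Formula → CFormula, PolyTimeMap f ∧ ∀ φ, ETR φ ↔ ETC (f φ)

/-- A promise problem is `NP`-hard if every language in `NP` reduces to it. -/
def NPHardPromise {α : Type} [TEnc α] (Q : Promise α) : Prop :=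
  ∀ L : Set (List Bool), InNP L → ∃ f : List Bool → α, PolyTime (fun x => bits (f x)) ∧
    ∀ x, (x ∈ L → Q.yes (f x)) ∧ (x ∉ L → Q.no (f x))

/-- The minimum rank of a variable matrix over the complex numbers. -/
noncomputable def minRankC (M : VarMatrix) : ℕ := sInf {r | ∃ a : ℕ → ℂ, (atC M a).rank = r}

/-- The promise problem `GapMinRank_ε` over the complex numbers. -/
def GapMinRankC (ε : ℝ) : Promise (VarMatrix × ℕ) where
  yes p := 1 ≤ p.2 ∧ minRankC p.1 ≤ p.2
  no p := 1 ≤ p.2 ∧ (1 + ε) * (p.2 : ℝ) < (minRankC p.1 : ℝ)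

theorem exists_rank_eq_minRankC (M : VarMatrix) : ∃ a : ℕ → ℂ, (atC M a).rank = minRankC M := by
  have hne : {r | ∃ a : ℕ → ℂ, (atC M a).rank = r}.Nonempty := ⟨_, fun _ => 0, rfl⟩
  exact Nat.sInf_mem hne

theorem minRankC_le (M : VarMatrix) (a : ℕ → ℂ) : minRankC M ≤ (atC M a).rank :=
  Nat.sInf_le ⟨a, rfl⟩

end Pool.Agent.KS6_28.MinRank

namespace Pool.Agent.NPC.KS28

open Pool.Agent.KS6_28.MinRank Pool.Agent.H606R2.MinRank Pool.Agent.NPC.H606MinRank

theorem poly_of_polyTimeMap {α β : Type} [TEnc α] [TEnc β] {f : α → β} (h : PolyTimeMap f) :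
    Poly f := Pool.Agent.H642R2.TMSim.toPC h

/-! ### Upper bounds -/

theorem inExistsR_gap {ε : ℝ} (hε : 0 ≤ ε) : InExistsR (GapMinRank ε) := by
  refine ⟨fun p => (toC p).toFormula, polyTimeMap_of_poly (poly_toFormula.comp poly_toC),
    fun p => ⟨fun h => ?_, fun h => ?_⟩⟩
  · obtain ⟨a, ha⟩ := exists_rank_eq_minRank p.1
    exact (etr_toC p.1 p.2).2 ⟨a, by rw [ha]; exact h.2⟩
  · intro h'
    obtain ⟨a, ha⟩ := (etr_toC p.1 p.2).1 h'
    have h1 := (minRank_le p.1 a).trans ha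
    have h2 := h.2
    have h3 : (p.1.minRank : ℝ) ≤ (p.2 : ℝ) := by exact_mod_cast h1
    have h4 : (0 : ℝ) ≤ ε * (p.2 : ℝ) := mul_nonneg hε (Nat.cast_nonneg _)
    linarith

theorem inExistsC_gap {ε : ℝ} (hε : 1 ≤ ε) : InExistsC (GapMinRank ε) := by
  refine ⟨toC, polyTimeMap_of_poly poly_toC, fun p => ⟨fun h => ?_, fun h => ?_⟩⟩
  · obtain ⟨a, ha⟩ := exists_atC_le p.1
    exact (etc_toC p.1 p.2).2 ⟨a, ha.trans h.2⟩
  · intro h'
    obtain ⟨a, ha⟩ := (etc_toC p.1 p.2).1 h'
    have h1 := minRank_le_two_mul p.1 ha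
    have h2 := h.2
    have h3 : (p.1.minRank : ℝ) ≤ 2 * (p.2 : ℝ) := by exact_mod_cast h1
    have h4 : (2 : ℝ) * (p.2 : ℝ) ≤ (1 + ε) * (p.2 : ℝ) :=
      mul_le_mul_of_nonneg_right (by linarith) (Nat.cast_nonneg _)
    linarith

theorem inExistsC_gapC {ε : ℝ} (hε : 0 ≤ ε) : InExistsC (GapMinRankC ε) := by
  refine ⟨toC, polyTimeMap_of_poly poly_toC, fun p => ⟨fun h => ?_, fun h => ?_⟩⟩
  · obtain ⟨a, ha⟩ := exists_rank_eq_minRankC p.1
    exact (etc_toC p.1 p.2).2 ⟨a, by rw [ha]; exact h.2⟩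
  · intro h'
    obtain ⟨a, ha⟩ := (etc_toC p.1 p.2).1 h'
    have h1 := (minRankC_le p.1 a).trans ha
    have h2 := h.2
    have h3 : (minRankC p.1 : ℝ) ≤ (p.2 : ℝ) := by exact_mod_cast h1
    have h4 : (0 : ℝ) ≤ ε * (p.2 : ℝ) := mul_nonneg hε (Nat.cast_nonneg _)
    linarith

/-! ### Lower bounds -/

theorem existsRHard_gap {ε : ℝ} (hε : ε < 1) : ExistsRHard (GapMinRank ε) := by
  obtain ⟨f, hf, h⟩ := Pool.Agent.Results.MP_3930bf_lc.GapHard.result (max ε (1 / 2))
    (lt_of_lt_of_le (by norm_num) (le_max_right _ _)) (max_lt hε (by norm_num))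
  refine ⟨f, hf, fun φ => ⟨(h φ).1, fun hn => ?_⟩⟩
  obtain ⟨h1, h2⟩ := (h φ).2 hn
  refine ⟨h1, lt_of_le_of_lt ?_ h2⟩
  exact mul_le_mul_of_nonneg_right (by linarith [le_max_left ε (1 / 2)]) (Nat.cast_nonneg _)

theorem existsCHard_gapC (ε : ℝ) : ExistsCHard (GapMinRankC ε) := by
  obtain ⟨C, hC⟩ := exists_nat_ge (1 + ε)
  set k : ℕ := 2 * C + 3 with hk
  set R : ℕ := C * (2 * k) with hR
  have hkR : R + 2 * k < k * k := by
    have : k * k = (2 * C + 3) * k := by rw [← hk]
    rw [this, hR]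
    have : C * (2 * k) = 2 * C * k := by ring
    rw [this]
    nlinarith [hk]
  have hpoly : Poly (fun φ : CFormula => (redMat k R (sysOf φ.toFormula.code), 2 * k)) :=
    Poly.pair (poly_redMat k R (poly_sysOf.comp (poly_code.comp poly_toFormula))) (Poly.const _)
  refine ⟨_, polyTimeMap_of_poly hpoly, fun φ => ⟨fun h => ?_, fun h => ?_⟩⟩
  · obtain ⟨x, hx⟩ := (sysOf_iffC φ).1 h
    obtain ⟨a, ha⟩ := redMat_complete (k := k) (by omega) R hx
    exact ⟨by show 1 ≤ 2 * k; omega, (minRankC_le _ a).trans ha⟩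
  · refine ⟨by show 1 ≤ 2 * k; omega, ?_⟩
    obtain ⟨a, ha⟩ := exists_rank_eq_minRankC (redMat k R (sysOf φ.toFormula.code))
    have hlt : R < minRankC (redMat k R (sysOf φ.toFormula.code)) := by
      by_contra hle
      exact h ((sysOf_iffC φ).2 (redMat_sound hkR le_rfl (ha.le.trans (not_lt.1 hle))))
    show (1 + ε) * ((2 * k : ℕ) : ℝ) < (minRankC (redMat k R (sysOf φ.toFormula.code)) : ℝ)
    have h1 : (1 + ε) * ((2 * k : ℕ) : ℝ) ≤ (R : ℝ) := by
      rw [hR]
      push_cast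
      exact mul_le_mul_of_nonneg_right hC (by positivity)
    have h2 : (R : ℝ) < (minRankC (redMat k R (sysOf φ.toFormula.code)) : ℝ) := by
      exact_mod_cast hlt
    linarith

/-- From the factor two on, `∃ℝ`-hardness is equivalent to `∃ℝ = ∃ℂ`. -/
theorem hard_iff {ε : ℝ} (hε : 1 ≤ ε) : ExistsRHard (GapMinRank ε) ↔ ETRReducesToETC := by
  constructor
  · rintro ⟨f, hf, h⟩
    obtain ⟨g, hg, h'⟩ := inExistsC_gap hε
    refine ⟨fun φ => g (f φ), polyTimeMap_of_poly
      ((poly_of_polyTimeMap hg).comp (poly_of_polyTimeMap hf)), fun φ => ?_⟩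
    constructor
    · intro hφ; exact (h' _).1 ((h φ).1 hφ)
    · intro hφ
      by_contra hn
      exact (h' _).2 ((h φ).2 hn) hφ
  · rintro ⟨f, hf, h⟩
    obtain ⟨g, hg, h'⟩ := existsCHard_gap ε
    refine ⟨fun φ => g (f φ), polyTimeMap_of_poly
      ((poly_of_polyTimeMap hg).comp (poly_of_polyTimeMap hf)), fun φ => ⟨fun hφ => ?_, fun hφ => ?_⟩⟩
    · exact (h' _).1 ((h φ).1 hφ)
    · exact (h' _).2 (fun hc => hφ ((h φ).2 hc))

/-! ### `NP`-hardness -/

/-- Literals. -/
def litF (l : Bool × ℕ) : CFormula :=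
  if l.1 then CFormula.eq (Term.var l.2) Term.one
  else CFormula.not (CFormula.eq (Term.var l.2) Term.one)

/-- The code of a literal. -/
def litC (l : Bool × ℕ) : List (ℕ × ℕ) :=
  [(2, l.2), (1, 0), (5, 0)] ++ if l.1 then [] else [(7, 0)]

theorem code_litF (l : Bool × ℕ) : (litF l).toFormula.code = litC l := by
  obtain ⟨b, v⟩ := l
  cases b <;> rfl

/-- Disjunctions. -/
def disj (l : List CFormula) : CFormula :=
  l.foldr CFormula.or (CFormula.eq Term.zero Term.one)

theorem code_disj (l : List CFormula) :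
    (disj l).toFormula.code = l.flatMap (fun φ => φ.toFormula.code) ++
      (0, 0) :: (1, 0) :: (5, 0) :: List.replicate l.length (9, 0) := by
  induction l with
  | nil => rfl
  | cons φ l ih =>
    have : disj (φ :: l) = CFormula.or φ (disj l) := rfl
    rw [this, CFormula.toFormula, Formula.code, ih, List.length_cons, List.replicate_succ',
      List.flatMap_cons]
    simp

theorem holds_disj (y : ℕ → ℂ) (l : List CFormula) :
    (disj l).Holds y ↔ ∃ φ ∈ l, φ.Holds y := by
  induction l with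
  | nil => simp [disj, CFormula.Holds, cval]
  | cons φ l ih =>
    have : disj (φ :: l) = CFormula.or φ (disj l) := rfl
    rw [this, CFormula.Holds, ih, List.exists_mem_cons_iff]

/-- The sentence of a propositional formula in conjunctive normal form. -/
def satC (φ : List (List (Bool × ℕ))) : CFormula := conj (φ.map fun c => disj (c.map litF))

theorem sat_iff (φ : List (List (Bool × ℕ))) : SAT φ ↔ ETC (satC φ) := by
  have hlit : ∀ (y : ℕ → ℂ) (l : Bool × ℕ), (litF l).Holds y ↔ (decide (y l.2 = 1) = l.1) := by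
    rintro y ⟨b, v⟩
    cases b <;> simp [litF, CFormula.Holds, cval]
  have key : ∀ y : ℕ → ℂ, (satC φ).Holds y ↔
      ∀ c ∈ φ, ∃ l ∈ c, decide (y l.2 = 1) = l.1 := by
    intro y
    rw [satC, holds_conj]
    constructor
    · intro h c hc
      obtain ⟨_, hψ, h1⟩ := (holds_disj y _).1 (h _ (List.mem_map.2 ⟨c, hc, rfl⟩))
      obtain ⟨l, hl, rfl⟩ := List.mem_map.1 hψ
      exact ⟨l, hl, (hlit y l).1 h1⟩
    · intro h ψ hψ
      obtain ⟨c, hc, rfl⟩ := List.mem_map.1 hψ
      obtain ⟨l, hl, e⟩ := h c hc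
      exact (holds_disj y _).2 ⟨litF l, List.mem_map.2 ⟨l, hl, rfl⟩, (hlit y l).2 e⟩
  constructor
  · rintro ⟨τ, hτ⟩
    refine ⟨fun v => if τ v then 1 else 0, (key _).2 fun c hc => ?_⟩
    obtain ⟨l, hl, e⟩ := hτ c hc
    refine ⟨l, hl, ?_⟩
    rw [← e]
    cases τ l.2 <;> simp
  · rintro ⟨y, hy⟩
    exact ⟨fun v => decide (y v = 1), (key y).1 hy⟩

/-- The code of a clause. -/
def clauseC (c : List (Bool × ℕ)) : List (ℕ × ℕ) :=
  c.flatMap litC ++ (0, 0) :: (1, 0) :: (5, 0) :: c.map fun _ => ((9, 0) : ℕ × ℕ)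

theorem code_clause (c : List (Bool × ℕ)) :
    (disj (c.map litF)).toFormula.code = clauseC c := by
  rw [code_disj, List.flatMap_map, List.length_map, clauseC]
  congr 1
  · congr 1
    funext l
    exact code_litF l
  · congr 3
    simp

theorem poly_satC : Poly satC := by
  have hlit : Poly litC := by
    refine Poly.append (Poly.cons (Poly.pair (Poly.const 2) (Poly.snd Poly.id))
      (Poly.const [(1, 0), (5, 0)])) ?_
    exact (Poly.cond (Poly.fst Poly.id) (Poly.const ([] : List (ℕ × ℕ)))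
      (Poly.const [((7, 0) : ℕ × ℕ)])).congr fun l => by
        obtain ⟨b, v⟩ := l
        cases b <;> rfl
  have hdisj : Poly clauseC := by
    refine Poly.append (Poly.flatMap (F := fun _ l => litC l) Poly.id
      (hlit.comp (Poly.snd Poly.id))) (Poly.cons (Poly.const _) (Poly.cons (Poly.const _)
        (Poly.cons (Poly.const _) ?_)))
    exact Poly.map (F := fun _ _ => ((9, 0) : ℕ × ℕ)) Poly.id (Poly.const _)
  have h1 : Poly (fun φ : List (List (Bool × ℕ)) => φ.flatMap clauseC ++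
      (0, 0) :: (0, 0) :: (5, 0) :: φ.map fun _ => ((8, 0) : ℕ × ℕ)) := by
    refine Poly.append (Poly.flatMap (F := fun _ c => clauseC c) Poly.id
      (hdisj.comp (Poly.snd Poly.id))) (Poly.cons (Poly.const _) (Poly.cons (Poly.const _)
        (Poly.cons (Poly.const _) ?_)))
    exact Poly.map (F := fun _ _ => ((8, 0) : ℕ × ℕ)) Poly.id (Poly.const _)
  have h2 : Poly (fun φ : List (List (Bool × ℕ)) => (satC φ).toFormula.code) := by
    refine h1.congr fun φ => ?_
    rw [satC, code_conj, List.flatMap_map, List.length_map]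
    congr 1
    · congr 1
      funext c
      exact (code_clause c).symm
    · congr 3
      simp
  exact Poly.of_toT (h2.toT'.congr fun _ => rfl)

/-- For every constant factor the approximation is `NP`-hard. -/
theorem npHard_gap (ε : ℝ) : NPHardPromise (GapMinRank ε) := by
  intro L hL
  obtain ⟨f, hf, h⟩ := hardI_SAT L hL
  obtain ⟨g, hg, h'⟩ := existsCHard_gap ε
  refine ⟨fun x => g (satC (f x)), PC.toPolyTime_bits ((poly_of_polyTimeMap hg).comp poly_satC) f hf,
    fun x => ⟨fun hx => ?_, fun hx => ?_⟩⟩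
  · exact (h' _).1 ((sat_iff _).1 ((h x).1 hx))
  · exact (h' _).2 (fun hc => hx ((h x).2 ((sat_iff _).2 hc)))

end Pool.Agent.NPC.KS28
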