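import Pool.Agent.KS6_28.MinRank.CPoly

/-!
# From matrices to sentences

The sentence of `(M, r)` says that `M(x) = U V` for some `x` and some matrices `U`, `V` with inner
dimension `min r N`, where `N` is the size of `M`.
-/

namespace Pool.Agent.KS6_28.MinRank

open Pool.Agent.NPC Pool.Agent.H606R2.MinRank Pool.Agent.NPC.KS28

/-! ### Terms and formulas -/

/-- Sums. -/
def sumT (l : List Term) : Term := l.foldr Term.add Term.zero

theorem code_sumT (l : List Term) :
    (sumT l).code = l.flatMap Term.code ++ (0, 0) :: List.replicate l.length (3, 0) := by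
  induction l with
  | nil => rfl
  | cons t l ih =>
    have : sumT (t :: l) = Term.add t (sumT l) := rfl
    rw [this, Term.code, ih, List.length_cons, List.replicate_succ', List.flatMap_cons]
    simp

theorem cval_sumT (y : ℕ → ℂ) (l : List Term) : cval y (sumT l) = (l.map (cval y)).sum := by
  induction l with
  | nil => rfl
  | cons t l ih =>
    have : sumT (t :: l) = Term.add t (sumT l) := rfl
    rw [this, cval, ih, List.map_cons, List.sum_cons]

/-- Conjunctions. -/
def conj (l : List CFormula) : CFormula := l.foldr CFormula.and (CFormula.eq Term.zero Term.zero)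

theorem code_conj (l : List CFormula) :
    (conj l).toFormula.code = l.flatMap (fun φ => φ.toFormula.code) ++
      (0, 0) :: (0, 0) :: (5, 0) :: List.replicate l.length (8, 0) := by
  induction l with
  | nil => rfl
  | cons φ l ih =>
    have : conj (φ :: l) = CFormula.and φ (conj l) := rfl
    rw [this, CFormula.toFormula, Formula.code, ih, List.length_cons, List.replicate_succ',
      List.flatMap_cons]
    simp

theorem holds_conj (y : ℕ → ℂ) (l : List CFormula) :
    (conj l).Holds y ↔ ∀ φ ∈ l, φ.Holds y := by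
  induction l with
  | nil => simp [conj, CFormula.Holds]
  | cons φ l ih =>
    have : conj (φ :: l) = CFormula.and φ (conj l) := rfl
    rw [this, CFormula.Holds, ih, List.forall_mem_cons]

/-- Binary numbers. -/
def natT (l : List Bool) : Term :=
  l.foldr (fun b t => Term.add (if b then Term.one else Term.zero)
    (Term.mul (Term.add Term.one Term.one) t)) Term.zero

/-- The code of a binary number. -/
def natC (l : List Bool) : List (ℕ × ℕ) :=
  l.flatMap (fun b => (if b then ((1, 0) : ℕ × ℕ) else (0, 0)) :: [(1, 0), (1, 0), (3, 0)]) ++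
    (0, 0) :: l.flatMap (fun _ => [(4, 0), (3, 0)])

theorem flatMap_const_append {α : Type} (x : List (ℕ × ℕ)) : ∀ l : List α,
    (l.flatMap fun _ => x) ++ x = x ++ l.flatMap fun _ => x
  | [] => by simp
  | a :: l => by
    rw [List.flatMap_cons, List.append_assoc, flatMap_const_append x l]

theorem code_natT (l : List Bool) : (natT l).code = natC l := by
  induction l with
  | nil => rfl
  | cons b l ih =>
    have : natT (b :: l) = Term.add (if b then Term.one else Term.zero)
      (Term.mul (Term.add Term.one Term.one) (natT l)) := rfl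
    rw [this, Term.code, Term.code, ih]
    unfold natC
    rw [List.flatMap_cons, List.flatMap_cons]
    have h1 : (if b then Term.one else Term.zero : Term).code =
        [if b then ((1, 0) : ℕ × ℕ) else (0, 0)] := by
      cases b <;> rfl
    have h2 := flatMap_const_append [((4, 0) : ℕ × ℕ), (3, 0)] l
    rw [h1]
    have h3 : (Term.add Term.one Term.one).code = [(1, 0), (1, 0), (3, 0)] := rfl
    rw [h3]
    simp only [List.append_assoc, List.cons_append, List.nil_append]
    rw [h2]
    rfl

theorem cval_natT (y : ℕ → ℂ) (l : List Bool) : cval y (natT l) = (valB l : ℂ) := by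
  induction l with
  | nil => simp [natT, cval, valB]
  | cons b l ih =>
    have : natT (b :: l) = Term.add (if b then Term.one else Term.zero)
      (Term.mul (Term.add Term.one Term.one) (natT l)) := rfl
    have hv : valB (b :: l) = (if b then 1 else 0) + 2 * valB l := by
      cases b <;> simp [valB]
    rw [this, cval, cval, ih, hv]
    cases b
    · simp only [cval, Bool.false_eq_true, if_false]
      push_cast
      ring
    · simp only [cval, if_true]
      push_cast
      ring

/-- The positive part of the numerator. -/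
def qpos (q : ℚ) : ℕ := if q.num < 0 then 0 else q.num.natAbs

/-- The negative part of the numerator. -/
def qneg (q : ℚ) : ℕ := if q.num < 0 then q.num.natAbs else 0

theorem qpos_sub_qneg (q : ℚ) : (q.den : ℂ) * (q : ℂ) + (qneg q : ℂ) = (qpos q : ℂ) := by
  have h1 : (q.den : ℂ) * (q : ℂ) = (q.num : ℂ) := by
    have h2 : (q.den : ℚ) * q = q.num := by rw [mul_comm]; exact Rat.mul_den_eq_num q
    have h3 := congrArg (fun x : ℚ => (x : ℂ)) h2
    push_cast at h3
    exact h3
  rw [h1]
  unfold qneg qpos
  have h4 : ∀ z : ℤ, (z : ℂ) + ((if z < 0 then z.natAbs else 0 : ℕ) : ℂ) =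
      ((if z < 0 then 0 else z.natAbs : ℕ) : ℂ) := by
    intro z
    split_ifs with hz
    · have : (z : ℤ) + (z.natAbs : ℤ) = 0 := by omega
      have h5 := congrArg (fun x : ℤ => (x : ℂ)) this
      simp only [Int.cast_add, Int.cast_natCast, Int.cast_zero] at h5
      rw [Nat.cast_zero]
      exact h5
    · have : (z : ℤ) = (z.natAbs : ℤ) := by omega
      have h5 := congrArg (fun x : ℤ => (x : ℂ)) this
      simp only [Int.cast_natCast] at h5
      rw [Nat.cast_zero, add_zero]
      exact h5
  exact h4 q.num

/-- The equation `S = e`. -/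
def eqn (S : Term) : Entry → CFormula
  | Entry.const q => CFormula.eq (Term.add (Term.mul (natT q.den.bits) S) (natT (qneg q).bits))
      (natT (qpos q).bits)
  | Entry.var i => CFormula.eq S (Term.var (3 * i))

theorem holds_eqn (y : ℕ → ℂ) (S : Term) (e : Entry) :
    (eqn S e).Holds y ↔ cval y S = evC (fun i => y (3 * i)) e := by
  cases e with
  | const q =>
    have h0 : (q.den : ℂ) ≠ 0 := by exact_mod_cast q.den_nz
    simp only [eqn, CFormula.Holds, cval, cval_natT, valB_bits, evC]
    rw [← qpos_sub_qneg q]
    constructor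
    · intro h
      exact mul_left_cancel₀ h0 (add_right_cancel h)
    · intro h; rw [h]
  | var i => simp only [eqn, CFormula.Holds, cval, evC]

/-- The code of the equation. -/
def eqnC (s : List (ℕ × ℕ)) : Entry → List (ℕ × ℕ)
  | Entry.const q => ((natC q.den.bits ++ (s ++ [(4, 0)])) ++ (natC (qneg q).bits ++ [(3, 0)])) ++
      (natC (qpos q).bits ++ [(5, 0)])
  | Entry.var i => s ++ ([(2, 3 * i)] ++ [(5, 0)])

theorem code_eqn (S : Term) (e : Entry) : (eqn S e).toFormula.code = eqnC S.code e := by
  cases e with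
  | const q => simp [eqn, eqnC, CFormula.toFormula, Formula.code, Term.code, code_natT]
  | var i => simp [eqn, eqnC, CFormula.toFormula, Formula.code, Term.code]

/-- The variable `U_{il}`. -/
def uvar (R i l : ℕ) : ℕ := 3 * (i * (R + 1) + l) + 1

/-- The variable `V_{lj}`. -/
def wvar (R j l : ℕ) : ℕ := 3 * (j * (R + 1) + l) + 2

/-- The entry `(U V)_{ij}`. -/
def prodT (R i j : ℕ) : Term :=
  sumT ((List.range R).map fun l => Term.mul (Term.var (uvar R i l)) (Term.var (wvar R j l)))

/-- The code of the entry `(U V)_{ij}`. -/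
def prodC (R i j : ℕ) : List (ℕ × ℕ) :=
  ((List.range R).flatMap fun l => [(2, uvar R i l), (2, wvar R j l), (4, 0)]) ++
    (0, 0) :: (List.range R).map fun _ => (3, 0)

theorem code_prodT (R i j : ℕ) : (prodT R i j).code = prodC R i j := by
  rw [prodT, code_sumT, prodC, List.flatMap_map]
  congr 1
  congr 1
  simp

/-- The entries of a matrix given by its rows. -/
def entAt (rows : List (List Entry)) (i j : ℕ) : Entry := (rows.getD i []).getD j (Entry.const 0)

/-- The equations for all the entries. -/
def eqList (rows : List (List Entry)) (R : ℕ) : List CFormula :=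
  (List.range rows.length).flatMap fun i => (List.range rows.length).map fun j =>
    eqn (prodT R i j) (entAt rows i j)

/-- The sentence of `(M, r)`. -/
def toC (p : VarMatrix × ℕ) : CFormula := conj (eqList p.1.rows (min p.2 p.1.rows.length))

theorem atC_apply (M : VarMatrix) (a : ℕ → ℂ) (i j : Fin M.rows.length) :
    atC M a i j = evC a (entAt M.rows i j) := by
  have h1 : (M.rows[i.1]).length = M.rows.length := M.square _ (List.getElem_mem _)
  unfold atC entAt
  rw [Matrix.of_apply]
  congr 1
  rw [List.getD_eq_getElem M.rows [] i.2, List.getD_eq_getElem]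

theorem holds_toC (M : VarMatrix) (r : ℕ) (y : ℕ → ℂ) :
    (toC (M, r)).Holds y ↔ ∀ i j : Fin M.rows.length,
      ∑ l ∈ Finset.range (min r M.rows.length), y (uvar (min r M.rows.length) i l) *
        y (wvar (min r M.rows.length) j l) = atC M (fun v => y (3 * v)) i j := by
  rw [toC, holds_conj]
  simp only [eqList, List.mem_flatMap, List.mem_range, List.mem_map]
  set R := min r M.rows.length
  have hval : ∀ i j, cval y (prodT R i j) =
      ∑ l ∈ Finset.range R, y (uvar R i l) * y (wvar R j l) := by
    intro i j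
    rw [prodT, cval_sumT, List.map_map, Finset.sum_range, ← List.sum_ofFn]
    congr 1
    rw [List.ofFn_eq_map, ← List.map_coe_finRange_eq_range, List.map_map]
    rfl
  constructor
  · intro h i j
    have := h (eqn (prodT R i j) (entAt M.rows i j)) ⟨i, i.2, j, j.2, rfl⟩
    rw [holds_eqn, hval] at this
    rw [this, atC_apply]
  · rintro h _ ⟨i, hi, j, hj, rfl⟩
    rw [holds_eqn, hval]
    have := h ⟨i, hi⟩ ⟨j, hj⟩
    rw [this, atC_apply]

/-- The sentence says that the rank is at most `r` at some complex point. -/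
theorem etc_toC (M : VarMatrix) (r : ℕ) : ETC (toC (M, r)) ↔ ∃ a : ℕ → ℂ, (atC M a).rank ≤ r := by
  set N := M.rows.length with hN
  constructor
  · rintro ⟨y, hy⟩
    rw [holds_toC] at hy
    refine ⟨fun v => y (3 * v), ?_⟩
    have h1 : atC M (fun v => y (3 * v)) =
        (Matrix.of fun (i : Fin M.rows.length) (l : Fin (min r M.rows.length)) =>
          y (uvar (min r M.rows.length) i l)) *
        (Matrix.of fun (l : Fin (min r M.rows.length)) (j : Fin M.rows.length) =>
          y (wvar (min r M.rows.length) j l)) := by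
      ext i j
      rw [← hy i j, Matrix.mul_apply, Finset.sum_range]
      rfl
    rw [h1]
    exact (rank_le_of_factor _ _).trans (min_le_left _ _)
  · rintro ⟨a, ha⟩
    have h1 : (atC M a).rank ≤ min r M.rows.length :=
      le_min ha ((Matrix.rank_le_card_width _).trans (by simp))
    obtain ⟨R, hR⟩ : ∃ R, R = min r M.rows.length := ⟨_, rfl⟩
    rw [← hR] at h1
    obtain ⟨U, V, hUV⟩ := exists_factor (atC M a) h1
    let y : ℕ → ℂ := fun v =>
      if v % 3 = 0 then a (v / 3)
      else if v % 3 = 1 then
        (if h : v / 3 / (R + 1) < M.rows.length ∧ v / 3 % (R + 1) < R then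
          U ⟨v / 3 / (R + 1), h.1⟩ ⟨v / 3 % (R + 1), h.2⟩ else 0)
      else (if h : v / 3 / (R + 1) < M.rows.length ∧ v / 3 % (R + 1) < R then
          V ⟨v / 3 % (R + 1), h.2⟩ ⟨v / 3 / (R + 1), h.1⟩ else 0)
    have hdiv : ∀ i l, l < R → (i * (R + 1) + l) / (R + 1) = i := by
      intro i l hl
      rw [Nat.add_comm, Nat.add_mul_div_right _ _ (by omega), Nat.div_eq_of_lt (by omega)]
      omega
    have hmod : ∀ i l, l < R → (i * (R + 1) + l) % (R + 1) = l := by
      intro i l hl
      rw [Nat.add_comm, Nat.add_mul_mod_self_right, Nat.mod_eq_of_lt (by omega)]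
    have hU : ∀ (i : Fin M.rows.length) (l : Fin R), y (uvar R i l) = U i l := by
      intro i l
      have e1 : uvar R i l % 3 = 1 := by unfold uvar; omega
      have e2 : uvar R i l / 3 = i * (R + 1) + l := by unfold uvar; omega
      simp only [y]
      rw [if_neg (by omega), if_pos e1, dif_pos (by rw [e2, hdiv _ _ l.2, hmod _ _ l.2]; exact ⟨i.2, l.2⟩)]
      congr 1
      · apply Fin.ext; simp only [e2]; exact hdiv _ _ l.2
      · apply Fin.ext; simp only [e2]; exact hmod _ _ l.2
    have hV : ∀ (j : Fin M.rows.length) (l : Fin R), y (wvar R j l) = V l j := by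
      intro j l
      have e1 : wvar R j l % 3 = 2 := by unfold wvar; omega
      have e2 : wvar R j l / 3 = j * (R + 1) + l := by unfold wvar; omega
      simp only [y]
      rw [if_neg (by omega), if_neg (by omega),
        dif_pos (by rw [e2, hdiv _ _ l.2, hmod _ _ l.2]; exact ⟨j.2, l.2⟩)]
      congr 1
      · apply Fin.ext; simp only [e2]; exact hmod _ _ l.2
      · apply Fin.ext; simp only [e2]; exact hdiv _ _ l.2
    refine ⟨y, ?_⟩
    rw [holds_toC, ← hR]
    intro i j
    have h3 : (fun v => y (3 * v)) = a := by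
      funext v
      simp only [y]
      rw [if_pos (by omega)]
      congr 1
      omega
    rw [h3, hUV, Matrix.mul_apply, Finset.sum_range]
    exact Finset.sum_congr rfl fun l _ => by rw [hU, hV]

end Pool.Agent.KS6_28.MinRank

namespace Pool.Agent.NPC.KS28

open Pool.Agent.KS6_28.MinRank Pool.Agent.H606R2.MinRank Pool.Agent.NPC.H606MinRank

section

variable {α : Type} [TEnc α]

theorem poly_natC {l : α → List Bool} (hl : Poly l) : Poly (fun a => natC (l a)) := by
  unfold natC
  refine Poly.append ?_ (Poly.cons (Poly.const _) ?_)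
  · refine Poly.flatMap (F := fun _ b => (if b then ((1, 0) : ℕ × ℕ) else (0, 0)) ::
      [(1, 0), (1, 0), (3, 0)]) hl ?_
    refine Poly.cons ?_ (Poly.const _)
    exact (Poly.cond (Poly.snd Poly.id) (Poly.const ((1, 0) : ℕ × ℕ))
      (Poly.const ((0, 0) : ℕ × ℕ))).congr fun p => by cases p.2 <;> rfl
  · exact Poly.flatMap (F := fun _ _ => [((4, 0) : ℕ × ℕ), (3, 0)]) hl (Poly.const _)

theorem poly_numden {q : α → ℚ} (hq : Poly q) : Poly (fun a => ((q a).num, (q a).den)) :=
  Poly.of_toT (hq.toT'.congr fun _ => rfl)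

theorem poly_signabs {z : α → ℤ} (hz : Poly z) : Poly (fun a => (decide (z a < 0), (z a).natAbs)) :=
  Poly.of_toT (hz.toT'.congr fun _ => rfl)

theorem poly_qpos {q : α → ℚ} (hq : Poly q) : Poly (fun a => qpos (q a)) := by
  have h1 := poly_signabs (Poly.fst (poly_numden hq))
  refine (Poly.cond (Poly.fst h1) (Poly.const 0) (Poly.snd h1)).congr fun a => ?_
  unfold qpos
  by_cases h : (q a).num < 0 <;> simp [h]

theorem poly_qneg {q : α → ℚ} (hq : Poly q) : Poly (fun a => qneg (q a)) := by
  have h1 := poly_signabs (Poly.fst (poly_numden hq))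
  refine (Poly.cond (Poly.fst h1) (Poly.snd h1) (Poly.const 0)).congr fun a => ?_
  unfold qneg
  by_cases h : (q a).num < 0 <;> simp [h]

theorem poly_eqnC {s : α → List (ℕ × ℕ)} {e : α → Entry} (hs : Poly s) (he : Poly e) :
    Poly (fun a => eqnC (s a) (e a)) := by
  have h1 : Poly (fun a => (e a).toSum) := Poly.of_toT (he.toT'.congr fun _ => rfl)
  have h2 : Poly (fun p : α × ℚ => ((natC p.2.den.bits ++ (s p.1 ++ [((4, 0) : ℕ × ℕ)])) ++
      (natC (qneg p.2).bits ++ [(3, 0)])) ++ (natC (qpos p.2).bits ++ [(5, 0)])) := by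
    have hq : Poly (fun p : α × ℚ => p.2) := Poly.snd Poly.id
    have hs' := hs.comp (Poly.fst (Poly.id (α := α × ℚ)))
    have hd : Poly (fun p : α × ℚ => p.2.den) := Poly.snd (poly_numden hq)
    exact Poly.append (Poly.append (Poly.append (poly_natC (Poly.natBits hd))
      (Poly.append hs' (Poly.const _))) (Poly.append (poly_natC (Poly.natBits (poly_qneg hq)))
        (Poly.const _))) (Poly.append (poly_natC (Poly.natBits (poly_qpos hq))) (Poly.const _))
  have h3 : Poly (fun p : α × ℕ => s p.1 ++ ([((2, 3 * p.2) : ℕ × ℕ)] ++ [(5, 0)])) := by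
    have hs' := hs.comp (Poly.fst (Poly.id (α := α × ℕ)))
    exact Poly.append hs' (Poly.append (Poly.cons (Poly.pair (Poly.const 2)
      (Poly.mul (Poly.const 3) (Poly.snd Poly.id))) (Poly.const [])) (Poly.const _))
  refine (Poly.sumCases (g := fun a q => ((natC q.den.bits ++ (s a ++ [((4, 0) : ℕ × ℕ)])) ++
      (natC (qneg q).bits ++ [(3, 0)])) ++ (natC (qpos q).bits ++ [(5, 0)]))
      (h := fun a i => s a ++ ([((2, 3 * i) : ℕ × ℕ)] ++ [(5, 0)])) h1 h2 h3).congr fun a => ?_
  cases e a <;> rfl

theorem poly_prodC {R i j : α → ℕ} (hR : UPoly R) (hi : Poly i) (hj : Poly j) :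
    Poly (fun a => prodC (R a) (i a) (j a)) := by
  unfold prodC
  refine Poly.append ?_ (Poly.cons (Poly.const _) ?_)
  · refine Poly.flatMap (F := fun a l => [((2, uvar (R a) (i a) l) : ℕ × ℕ),
      (2, wvar (R a) (j a) l), (4, 0)]) hR.range ?_
    have ha : Poly (fun p : α × ℕ => p.1) := Poly.fst Poly.id
    have hl : Poly (fun p : α × ℕ => p.2) := Poly.snd Poly.id
    have hR' := (Poly.add hR.toPoly (Poly.const 1)).comp ha
    have key : ∀ {x : α → ℕ}, Poly x → ∀ c : ℕ,
        Poly (fun p : α × ℕ => 3 * (x p.1 * (R p.1 + 1) + p.2) + c) := by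
      intro x hx c
      exact Poly.add (Poly.mul (Poly.const 3) (Poly.add (Poly.mul (hx.comp ha) hR') hl))
        (Poly.const c)
    exact Poly.cons (Poly.pair (Poly.const 2) (key hi 1)) (Poly.cons (Poly.pair (Poly.const 2)
      (key hj 2)) (Poly.const _))
  · exact Poly.map (F := fun _ _ => ((3, 0) : ℕ × ℕ)) hR.range (Poly.const _)

theorem poly_entAt {rows : α → List (List Entry)} {i j : α → ℕ} (hr : Poly rows) (hi : Poly i)
    (hj : Poly j) : Poly (fun a => entAt (rows a) (i a) (j a)) :=
  Poly.getD (Poly.getD hr hi (Poly.const [])) hj (Poly.const (Entry.const 0))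

/-- The code of the sentence. -/
theorem code_toC (p : VarMatrix × ℕ) : (toC p).toFormula.code =
    (List.range p.1.rows.length).flatMap (fun i => (List.range p.1.rows.length).flatMap fun j =>
      eqnC (prodC (min p.2 p.1.rows.length) i j) (entAt p.1.rows i j)) ++
      (0, 0) :: (0, 0) :: (5, 0) :: (List.range (p.1.rows.length * p.1.rows.length)).map
        fun _ => (8, 0) := by
  rw [toC, code_conj, eqList, List.flatMap_assoc]
  congr 1
  · congr 1
    funext i
    rw [List.flatMap_map]
    congr 1
    funext j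
    rw [code_eqn, code_prodT]
  · congr 3
    simp [List.length_flatMap]

theorem poly_toC : Poly toC := by
  have hrows : Poly (fun p : VarMatrix × ℕ => p.1.rows) :=
    Poly.of_toT ((Poly.fst (Poly.id (α := VarMatrix × ℕ))).toT'.congr fun _ => rfl)
  have hN : UPoly (fun p : VarMatrix × ℕ => p.1.rows.length) := UPoly.length hrows
  have hR : UPoly (fun p : VarMatrix × ℕ => min p.2 p.1.rows.length) :=
    UPoly.of_le (Poly.min (Poly.snd Poly.id) hN.toPoly) hN fun p => min_le_right _ _
  have key : Poly (fun p : VarMatrix × ℕ => (toC p).toFormula.code) := by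
    refine Poly.congr (f := fun p : VarMatrix × ℕ => (List.range p.1.rows.length).flatMap
      (fun i => (List.range p.1.rows.length).flatMap fun j =>
      eqnC (prodC (min p.2 p.1.rows.length) i j) (entAt p.1.rows i j)) ++
      (0, 0) :: (0, 0) :: (5, 0) :: (List.range (p.1.rows.length * p.1.rows.length)).map
        fun _ => (8, 0)) ?_ fun p => (code_toC p).symm
    refine Poly.append ?_ (Poly.cons (Poly.const _) (Poly.cons (Poly.const _)
      (Poly.cons (Poly.const _) (Poly.map (F := fun _ _ => ((8, 0) : ℕ × ℕ)) (hN.mul hN).range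
        (Poly.const _)))))
    refine Poly.flatMap (F := fun (p : VarMatrix × ℕ) i =>
      (List.range p.1.rows.length).flatMap fun j =>
      eqnC (prodC (min p.2 p.1.rows.length) i j) (entAt p.1.rows i j)) hN.range ?_
    refine Poly.flatMap (F := fun (q : (VarMatrix × ℕ) × ℕ) j =>
      eqnC (prodC (min q.1.2 q.1.1.rows.length) q.2 j) (entAt q.1.1.rows q.2 j))
      (hN.comp (Poly.fst Poly.id)).range ?_
    have ha : Poly (fun q : ((VarMatrix × ℕ) × ℕ) × ℕ => q.1.1) := Poly.fst (Poly.fst Poly.id)
    have hi : Poly (fun q : ((VarMatrix × ℕ) × ℕ) × ℕ => q.1.2) := Poly.snd (Poly.fst Poly.id)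
    have hj : Poly (fun q : ((VarMatrix × ℕ) × ℕ) × ℕ => q.2) := Poly.snd Poly.id
    exact poly_eqnC (poly_prodC (hR.comp ha) hi hj) (poly_entAt (hrows.comp ha) hi hj)
  exact Poly.of_toT (key.toT'.congr fun _ => rfl)

end

end Pool.Agent.NPC.KS28
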